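import Mathlib

/-!
# Project LQ (helper51): MP_21d687_nt, Lindelof bound for all quadratic twists of a random `PGL_2` form

`F` a number field; `x v ∈ [-2, 2]` (`v` a nonzero prime ideal) plays the role of the normalised Hecke
eigenvalue `λ(v)` of an everywhere unramified tempered representation of `PGL_2`.
-/

set_option autoImplicit false

open MeasureTheory ProbabilityTheory Filter Finset IsDedekindDomain NumberField

namespace Pool.Agent.T2H51.LQ

/-- `λ(v^k)` as a function of `x = λ(v)`: `λ(v^(k+2)) = λ(v) λ(v^(k+1)) - λ(v^k)` -/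
noncomputable def hk : ℕ → ℝ → ℝ
  | 0, _ => 1
  | 1, x => x
  | (k + 2), x => x * hk (k + 1) x - hk k x

section
variable {F : Type} [Field F] [NumberField F]

/-- the exponent of the prime `v` in the ideal `I` -/
noncomputable def ordI (v : HeightOneSpectrum (𝓞 F)) (I : Ideal (𝓞 F)) : ℕ :=
  (Associates.mk v.asIdeal).count (Associates.mk I).factors

/-- the multiplicative function `λ(I) = ∏_v λ(v^(ord_v I))` -/
noncomputable def lam (x : HeightOneSpectrum (𝓞 F) → ℝ) (I : Ideal (𝓞 F)) : ℝ :=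
  ∏ᶠ v, hk (ordI v I) (x v)

open Classical in
/-- the quadratic character of `F(√D)/F` at the prime `v`, for `D` squarefree, with `e = ord_v 2`: it is `0` if
`D ∈ v` or `D` is not a square modulo `v^(2e)` (`v` ramified), `1` if `D` is a square modulo `v^(2e+1)` (`v` split),
and `-1` otherwise (`v` inert) -/
noncomputable def chiP (D : 𝓞 F) (v : HeightOneSpectrum (𝓞 F)) : ℝ :=
  if D ∈ v.asIdeal ∨ ¬ ∃ x : 𝓞 F, D - x ^ 2 ∈ v.asIdeal ^ (2 * ordI v (Ideal.span {2})) then 0
  else if ∃ x : 𝓞 F, D - x ^ 2 ∈ v.asIdeal ^ (2 * ordI v (Ideal.span {2}) + 1) then 1 else -1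

/-- the quadratic character on ideals -/
noncomputable def chi (D : 𝓞 F) (I : Ideal (𝓞 F)) : ℝ := ∏ᶠ v, chiP D v ^ ordI v I

variable (F) in
lemma finB (N : ℕ) : {I : Ideal (𝓞 F) | I ≠ ⊥ ∧ Ideal.absNorm I ≤ N}.Finite :=
  (Ideal.finite_setOfPred_absNorm_le (S := 𝓞 F) N).subset fun _ h => h.2

variable (F) in
/-- the nonzero ideals of norm at most `N` -/
noncomputable def B (N : ℕ) : Finset (Ideal (𝓞 F)) := (finB F N).toFinset

/-- the central sum `∑_{N(I) ≤ N} λ(I) χ_D(I) N(I)^(-1/2) V(N(I))` -/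
noncomputable def S (x : HeightOneSpectrum (𝓞 F) → ℝ) (D : 𝓞 F) (V : ℕ → ℝ) (N : ℕ) : ℝ :=
  ∑ I ∈ B F N, lam x I * chi D I / Real.sqrt (Ideal.absNorm I) * V (Ideal.absNorm I)

end

end Pool.Agent.T2H51.LQ
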