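import Pool.Agent.T2H51.LQ.Stm

/-! # Package AES -/

set_option autoImplicit false

open MeasureTheory ProbabilityTheory Filter Finset

namespace Pool.Agent.T2H51.LQ

theorem pAES : S_AES := by
  intro Ω _ P _ κ _ Y w hm hY hint hle hw
  have hw0 : ∀ i, 0 ≤ w i := fun i => (integral_nonneg (hY i)).trans (hle i)
  have h1 : ∫⁻ ω, ∑' i, ENNReal.ofReal (Y i ω) ∂P ≠ ⊤ := by
    rw [lintegral_tsum fun i => (hm i).ennreal_ofReal.aemeasurable]
    have h2 : ∀ i, ∫⁻ ω, ENNReal.ofReal (Y i ω) ∂P ≤ ENNReal.ofReal (w i) := by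
      intro i
      rw [← ofReal_integral_eq_lintegral_ofReal (hint i) (Filter.Eventually.of_forall (hY i))]
      exact ENNReal.ofReal_le_ofReal (hle i)
    refine ne_top_of_le_ne_top ?_ (ENNReal.tsum_le_tsum h2)
    rw [← ENNReal.ofReal_tsum_of_nonneg hw0 hw]
    exact ENNReal.ofReal_ne_top
  have h2 := ae_lt_top (Measurable.tsum (fun i => (hm i).ennreal_ofReal)) h1
  filter_upwards [h2] with ω hω
  refine ⟨(∑' i, ENNReal.ofReal (Y i ω)).toReal, ENNReal.toReal_nonneg, fun i => ?_⟩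
  have h3 : ENNReal.ofReal (Y i ω) ≤ ∑' i, ENNReal.ofReal (Y i ω) := ENNReal.le_tsum i
  exact (ENNReal.ofReal_le_iff_le_toReal hω.ne).1 h3

end Pool.Agent.T2H51.LQ
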