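import Pool.Agent.T2H51.LQ.Stm

/-! # Package MOM: the moment bound -/

set_option autoImplicit false

open MeasureTheory ProbabilityTheory Filter Finset

namespace Pool.Agent.T2H51.LQ

namespace MOM

/-- `∑_{a+b=k} z^a w^b` -/
noncomputable def gz (z w : ℂ) : ℕ → ℂ
  | 0 => 1
  | (k + 1) => z * gz z w k + w ^ (k + 1)

lemma gz_norm (z w : ℂ) (hz : ‖z‖ = 1) (hw : ‖w‖ = 1) : ∀ k : ℕ, ‖gz z w k‖ ≤ k + 1
  | 0 => by simp [gz]
  | (k + 1) => by
      have h := gz_norm z w hz hw k
      unfold gz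
      refine (norm_add_le _ _).trans ?_
      rw [norm_mul, norm_pow, hz, hw, one_pow, one_mul]
      push_cast
      linarith

lemma hk_eq (z w : ℂ) (hzw : z * w = 1) (x : ℝ) (hx : (x : ℂ) = z + w) :
    ∀ k : ℕ, (hk k x : ℂ) = gz z w k ∧ (hk (k + 1) x : ℂ) = gz z w (k + 1)
  | 0 => by
      refine ⟨by simp [hk, gz], ?_⟩
      simp only [hk, gz]
      rw [hx]; ring
  | (k + 1) => by
      obtain ⟨h1, h2⟩ := hk_eq z w hzw x hx k
      refine ⟨h2, ?_⟩
      simp only [hk]
      push_cast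
      rw [h1, h2, hx]
      simp only [gz]
      linear_combination (gz z w k) * hzw

lemma hk_bound (k : ℕ) (x : ℝ) (hx : |x| ≤ 2) : |hk k x| ≤ k + 1 := by
  set θ : ℝ := Real.arccos (x / 2) with hθ
  have hc : Real.cos θ = x / 2 := by
    have := abs_le.1 hx
    exact Real.cos_arccos (by linarith [this.1]) (by linarith [this.2])
  have h1 : (x : ℂ) = Complex.exp (θ * Complex.I) + Complex.exp (-(θ * Complex.I)) := by
    have h2 : (Real.cos θ : ℂ) = (x : ℂ) / 2 := by rw [hc]; push_cast; rfl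
    rw [Complex.ofReal_cos, Complex.cos] at h2
    have h3 : Complex.exp (-(θ : ℂ) * Complex.I) = Complex.exp (-(θ * Complex.I)) := by ring_nf
    rw [h3] at h2
    linear_combination (-2 : ℂ) * h2
  have h2 : Complex.exp (θ * Complex.I) * Complex.exp (-(θ * Complex.I)) = 1 := by
    rw [← Complex.exp_add, add_neg_cancel, Complex.exp_zero]
  have h3 := (hk_eq _ _ h2 x h1 k).1
  have h4 : ‖Complex.exp (θ * Complex.I)‖ = 1 := Complex.norm_exp_ofReal_mul_I θ
  have h5 : ‖Complex.exp (-(θ * Complex.I))‖ = 1 := by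
    have := Complex.norm_exp_ofReal_mul_I (-θ)
    push_cast at this
    rwa [neg_mul] at this
  have h6 := gz_norm _ _ h4 h5 k
  rw [← h3, Complex.norm_real, Real.norm_eq_abs] at h6
  exact h6

lemma hk_cont : ∀ k : ℕ, Continuous (hk k) ∧ Continuous (hk (k + 1))
  | 0 => ⟨by simpa [hk] using continuous_const, by
      have : hk 1 = fun x => x := by funext x; simp [hk]
      rw [this]; exact continuous_id⟩
  | (k + 1) => by
      obtain ⟨h1, h2⟩ := hk_cont k
      refine ⟨h2, ?_⟩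
      have : hk (k + 1 + 1) = fun x => x * hk (k + 1) x - hk k x := by funext x; simp [hk]
      rw [this]
      exact (continuous_id.mul h2).sub h1

/-- the local weight -/
noncomputable def A {m : ℕ} (y : ℝ) (f : Fin m → ℕ) : ℝ :=
  if ∑ i, f i = 1 then 0 else ∏ i, ((f i : ℝ) + 1) * y ^ f i

lemma A_nonneg {m : ℕ} {y : ℝ} (hy : 0 ≤ y) (f : Fin m → ℕ) : 0 ≤ A y f := by
  unfold A
  split_ifs
  · exact le_rfl
  · exact prod_nonneg fun i _ => by positivity

lemma geo (n : ℕ) : ∑ e ∈ range n, ((e : ℝ) + 1) * (3 / 4) ^ e = 16 - (4 * n + 16) * (3 / 4) ^ n := by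
  induction n with
  | zero => simp
  | succ n ih => rw [sum_range_succ, ih]; push_cast; ring

lemma local_bound {m : ℕ} {y : ℝ} (hy : 0 ≤ y) (hy' : y ≤ 3 / 4) (L : ℕ) :
    ∑ f ∈ Fintype.piFinset (fun _ : Fin m => range L), A y f ≤ 1 + (16 / 9 * 16 ^ m) * y ^ 2 := by
  classical
  have key : ∀ f : Fin m → ℕ, A y f ≤ (if f = 0 then 1 else 0) +
      y ^ 2 * (16 / 9) * ∏ i, ((f i : ℝ) + 1) * (3 / 4 : ℝ) ^ f i := by
    intro f
    have hpos : 0 ≤ y ^ 2 * (16 / 9) * ∏ i, ((f i : ℝ) + 1) * (3 / 4 : ℝ) ^ f i :=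
      mul_nonneg (by positivity) (prod_nonneg fun i _ => by positivity)
    unfold A
    by_cases h1 : ∑ i, f i = 1
    · rw [if_pos h1]
      split_ifs <;> linarith
    · rw [if_neg h1]
      by_cases h0 : f = 0
      · rw [if_pos h0]
        have : ∏ i, ((f i : ℝ) + 1) * y ^ f i = 1 := by
          rw [h0]; simp
        rw [this]; linarith
      · rw [if_neg h0, zero_add]
        have hs : 2 ≤ ∑ i, f i := by
          rcases Nat.lt_or_ge (∑ i, f i) 2 with h | h
          · exfalso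
            have : ∑ i, f i = 0 := by omega
            apply h0
            funext i
            exact (Finset.sum_eq_zero_iff.1 this) i (mem_univ i)
          · exact h
        obtain ⟨s, hs'⟩ := Nat.exists_eq_add_of_le hs
        rw [prod_mul_distrib, prod_mul_distrib, prod_pow_eq_pow_sum, prod_pow_eq_pow_sum, hs']
        have h3 : y ^ s ≤ (3 / 4 : ℝ) ^ s := pow_le_pow_left₀ hy hy' s
        have h4 : 0 ≤ ∏ i, ((f i : ℝ) + 1) := prod_nonneg fun i _ => by positivity
        have h5 : y ^ (2 + s) ≤ y ^ 2 * (16 / 9) * (3 / 4 : ℝ) ^ (2 + s) := by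
          rw [pow_add, pow_add]
          have : y ^ 2 * (16 / 9) * ((3 / 4 : ℝ) ^ 2 * (3 / 4) ^ s) = y ^ 2 * (3 / 4) ^ s := by
            ring
          rw [this]
          exact mul_le_mul_of_nonneg_left h3 (by positivity)
        calc (∏ i, ((f i : ℝ) + 1)) * y ^ (2 + s)
            ≤ (∏ i, ((f i : ℝ) + 1)) * (y ^ 2 * (16 / 9) * (3 / 4 : ℝ) ^ (2 + s)) :=
              mul_le_mul_of_nonneg_left h5 h4
          _ = _ := by ring
  refine (sum_le_sum fun f _ => key f).trans ?_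
  rw [sum_add_distrib, ← mul_sum]
  have h1 : ∑ f ∈ Fintype.piFinset (fun _ : Fin m => range L), (if f = 0 then (1 : ℝ) else 0) ≤ 1 := by
    rw [sum_ite_eq']
    split_ifs <;> norm_num
  have h2 : ∑ f ∈ Fintype.piFinset (fun _ : Fin m => range L),
      ∏ i, ((f i : ℝ) + 1) * (3 / 4 : ℝ) ^ f i ≤ 16 ^ m := by
    rw [← Finset.prod_univ_sum (fun _ : Fin m => range L) (fun _ e => ((e : ℝ) + 1) * (3 / 4 : ℝ) ^ e)]
    rw [geo, prod_const, card_univ, Fintype.card_fin]
    have h3 : 0 ≤ (4 * (L : ℝ) + 16) * (3 / 4) ^ L := by positivity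
    have h4 : 0 ≤ 16 - (4 * (L : ℝ) + 16) * (3 / 4) ^ L := by
      rw [← geo]; exact sum_nonneg fun e _ => by positivity
    exact pow_le_pow_left₀ h4 (by linarith) m
  have h3 : y ^ 2 * (16 / 9) * ∑ f ∈ Fintype.piFinset (fun _ : Fin m => range L),
      ∏ i, ((f i : ℝ) + 1) * (3 / 4 : ℝ) ^ f i ≤ y ^ 2 * (16 / 9) * 16 ^ m :=
    mul_le_mul_of_nonneg_left h2 (by positivity)
  linarith

section
variable {ι : Type} {Ω : Type} [MeasurableSpace Ω] {P : Measure Ω} [IsProbabilityMeasure P]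
  {X : ι → Ω → ℝ}

lemma int_one {m : ℕ} (hb : ∀ i ω, |X i ω| ≤ 2) (h0 : ∀ i, ∫ ω, X i ω ∂P = 0)
    (v : ι) (f : Fin m → ℕ) :
    |∫ ω, ∏ i, hk (f i) (X v ω) ∂P| ≤ if ∑ i, f i = 1 then 0 else ∏ i, ((f i : ℝ) + 1) := by
  classical
  by_cases h1 : ∑ i, f i = 1
  · rw [if_pos h1]
    obtain ⟨i0, hi0⟩ : ∃ i0, f i0 ≠ 0 := by
      by_contra hcon
      push Not at hcon
      rw [Finset.sum_eq_zero fun i _ => hcon i] at h1
      exact absurd h1 (by norm_num)
    rw [← Finset.add_sum_erase _ _ (mem_univ i0)] at h1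
    have h2 : f i0 = 1 := by omega
    have h3 : ∑ i ∈ univ.erase i0, f i = 0 := by omega
    have h4 : ∀ i, i ≠ i0 → f i = 0 := fun i hi =>
      (Finset.sum_eq_zero_iff.1 h3) i (mem_erase.2 ⟨hi, mem_univ i⟩)
    have h5 : ∀ ω, ∏ i, hk (f i) (X v ω) = X v ω := by
      intro ω
      rw [← Finset.mul_prod_erase _ _ (mem_univ i0), h2]
      rw [Finset.prod_eq_one fun i hi => by rw [h4 i (ne_of_mem_erase hi)]; simp [hk]]
      simp [hk]
    simp_rw [h5]
    rw [h0 v, abs_zero]
  · rw [if_neg h1]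
    have h2 : ∀ ω, ‖∏ i, hk (f i) (X v ω)‖ ≤ ∏ i, ((f i : ℝ) + 1) := by
      intro ω
      rw [Real.norm_eq_abs, abs_prod]
      exact prod_le_prod (fun i _ => abs_nonneg _) fun i _ => hk_bound _ _ (hb v ω)
    have h3 := norm_integral_le_of_norm_le_const (μ := P) (Filter.Eventually.of_forall h2)
    simpa using h3

lemma int_prod [Fintype ι] {m : ℕ} (hm : ∀ i, Measurable (X i)) (hind : iIndepFun X P) (hb : ∀ i ω, |X i ω| ≤ 2)
    (h0 : ∀ i, ∫ ω, X i ω ∂P = 0) (f : ι → Fin m → ℕ) :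
    |∫ ω, ∏ v, ∏ i, hk (f v i) (X v ω) ∂P| ≤
      ∏ v, if ∑ i, f v i = 1 then 0 else ∏ i, ((f v i : ℝ) + 1) := by
  have h1 := hind.integral_fun_prod_comp (f := fun v x => ∏ i, hk (f v i) x)
    (fun v => (hm v).aemeasurable)
    (fun v => (continuous_finsetProd _ fun i _ => (hk_cont (f v i)).1).aestronglyMeasurable)
  rw [h1, abs_prod]
  exact prod_le_prod (fun v _ => abs_nonneg _) fun v _ => int_one hb h0 v (f v)

end

end MOM

theorem pMOM : S_MOM := by
  intro m
  refine ⟨16 / 9 * 16 ^ m, by positivity, ?_⟩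
  intro ι _ Ω _ P _ X hm hind hb h0 β B e c y hinj hy hc
  classical
  -- expand
  have h1 : ∀ ω, (∑ a ∈ B, c a * ∏ v, hk (e a v) (X v ω)) ^ m =
      ∑ p ∈ Fintype.piFinset (fun _ : Fin m => B),
        (∏ i, c (p i)) * ∏ v, ∏ i, hk (e (p i) v) (X v ω) := by
    intro ω
    have : (∑ a ∈ B, c a * ∏ v, hk (e a v) (X v ω)) ^ m =
        ∏ _i : Fin m, ∑ a ∈ B, c a * ∏ v, hk (e a v) (X v ω) := by
      rw [prod_const, card_univ, Fintype.card_fin]
    rw [this, Finset.prod_univ_sum]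
    refine sum_congr rfl fun p _ => ?_
    rw [prod_mul_distrib]
    congr 1
    exact Finset.prod_comm
  simp_rw [h1]
  have hint : ∀ p : Fin m → β, Integrable (fun ω => (∏ i, c (p i)) * ∏ v, ∏ i, hk (e (p i) v) (X v ω)) P := by
    intro p
    refine Integrable.const_mul ?_ _
    refine Integrable.of_bound (C := ∏ v, ∏ i, ((e (p i) v : ℝ) + 1)) ?_ (Filter.Eventually.of_forall ?_)
    · refine Measurable.aestronglyMeasurable ?_
      refine Finset.measurable_prod _ fun v _ => Finset.measurable_prod _ fun i _ => ?_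
      exact (MOM.hk_cont _).1.measurable.comp (hm v)
    · intro ω
      rw [Real.norm_eq_abs, abs_prod]
      refine prod_le_prod (fun v _ => abs_nonneg _) fun v _ => ?_
      rw [abs_prod]
      exact prod_le_prod (fun i _ => abs_nonneg _) fun i _ => MOM.hk_bound _ _ (hb v ω)
  rw [integral_finsetSum _ fun p _ => hint p]
  -- each term
  have h2 : ∀ p ∈ Fintype.piFinset (fun _ : Fin m => B),
      ∫ ω, (∏ i, c (p i)) * ∏ v, ∏ i, hk (e (p i) v) (X v ω) ∂P ≤ ∏ v, MOM.A (y v) fun i => e (p i) v := by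
    intro p hp
    rw [integral_const_mul]
    refine (le_abs_self _).trans ?_
    rw [abs_mul, abs_prod]
    have h3 := MOM.int_prod hm hind hb h0 (fun v i => e (p i) v)
    have h4 : ∏ i, |c (p i)| ≤ ∏ i, ∏ v, y v ^ e (p i) v :=
      prod_le_prod (fun i _ => abs_nonneg _) fun i _ => hc _ (Fintype.mem_piFinset.1 hp i)
    rw [Finset.prod_comm] at h4
    refine (mul_le_mul h4 h3 (abs_nonneg _) (prod_nonneg fun v _ => prod_nonneg fun i _ =>
      pow_nonneg (hy v).1 _)).trans ?_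
    rw [← prod_mul_distrib]
    refine le_of_eq (prod_congr rfl fun v _ => ?_)
    unfold MOM.A
    split_ifs
    · rw [mul_zero]
    · rw [← prod_mul_distrib]
      exact prod_congr rfl fun i _ => mul_comm _ _
  refine (sum_le_sum h2).trans ?_
  -- injection
  set L : ℕ := (B.sup fun a => univ.sup fun v => e a v) + 1 with hL
  have hle : ∀ a ∈ B, ∀ v, e a v < L := by
    intro a ha v
    have h5 : e a v ≤ univ.sup fun v => e a v := Finset.le_sup (f := fun v => e a v) (mem_univ v)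
    have h6 : (univ.sup fun v => e a v) ≤ B.sup fun a => univ.sup fun v => e a v :=
      Finset.le_sup (f := fun a => univ.sup fun v => e a v) ha
    omega
  have h7 : ∑ p ∈ Fintype.piFinset (fun _ : Fin m => B), ∏ v, MOM.A (y v) (fun i => e (p i) v) ≤
      ∑ q ∈ Fintype.piFinset (fun _ : ι => Fintype.piFinset (fun _ : Fin m => range L)),
        ∏ v, MOM.A (y v) (q v) := by
    have h8 : Set.InjOn (fun (p : Fin m → β) (v : ι) (i : Fin m) => e (p i) v)
        (Fintype.piFinset (fun _ : Fin m => B) : Set (Fin m → β)) := by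
      intro p hp p' hp' hpp
      rw [mem_coe, Fintype.mem_piFinset] at hp hp'
      funext i
      refine hinj _ (hp i) _ (hp' i) ?_
      funext v
      exact congrFun (congrFun hpp v) i
    rw [← sum_image (f := fun q : ι → Fin m → ℕ => ∏ v, MOM.A (y v) (q v)) h8]
    refine sum_le_sum_of_subset_of_nonneg ?_ fun q _ _ => prod_nonneg fun v _ => MOM.A_nonneg (hy v).1 _
    intro q hq
    rw [mem_image] at hq
    obtain ⟨p, hp, rfl⟩ := hq
    rw [Fintype.mem_piFinset] at hp
    rw [Fintype.mem_piFinset]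
    intro v
    rw [Fintype.mem_piFinset]
    intro i
    exact mem_range.2 (hle _ (hp i) v)
  refine h7.trans ?_
  rw [← Finset.prod_univ_sum (fun _ : ι => Fintype.piFinset (fun _ : Fin m => range L))
    (fun v f => MOM.A (y v) f)]
  exact prod_le_prod (fun v _ => sum_nonneg fun f _ => MOM.A_nonneg (hy v).1 _)
    fun v _ => MOM.local_bound (hy v).1 (hy v).2 L

end Pool.Agent.T2H51.LQ
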