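import Pool.Agent.T2H51.LQ.Stm2
import Pool.Agent.T2H51.LQ.MOM

/-! # Package MOM2: the moment bound, uniformly in the order -/

set_option autoImplicit false

open MeasureTheory ProbabilityTheory Filter Finset

namespace Pool.Agent.T2H51.LQ

namespace MOM2

lemma geo_id (t : ℝ) (n : ℕ) :
    (∑ e ∈ range n, ((e : ℝ) + 1) * t ^ e) * (1 - t) ^ 2 = 1 - ((n : ℝ) + 1 - n * t) * t ^ n := by
  induction n with
  | zero => simp
  | succ n ih => rw [sum_range_succ, add_mul, ih]; push_cast; ring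

lemma exp_ge (t : ℝ) (h0 : 0 ≤ t) (h1 : t ≤ 3 / 4) : 1 ≤ Real.exp (2 * t) * (1 - t) := by
  have h2 := Real.sum_le_exp_of_nonneg (x := 2 * t) (by linarith) 4
  simp only [sum_range_succ, range_zero, sum_empty, Nat.factorial] at h2
  norm_num at h2
  have h3 : 0 ≤ 1 - t := by linarith
  have h4 := mul_le_mul_of_nonneg_right h2 h3
  refine le_trans ?_ h4
  have h5 : 0 ≤ t ^ 2 := sq_nonneg t
  have h6 : 0 ≤ t ^ 3 := pow_nonneg h0 3
  have h7 : t ^ 2 ≤ 9 / 16 := by nlinarith
  have h8 : t ^ 3 ≤ 27 / 64 := by nlinarith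
  have h9 : 0 ≤ t * (1 - (2 / 3) * t ^ 2 - (4 / 3) * t ^ 3) := mul_nonneg h0 (by linarith)
  nlinarith

lemma geo_le (t : ℝ) (h0 : 0 ≤ t) (h1 : t ≤ 3 / 4) (n : ℕ) :
    ∑ e ∈ range n, ((e : ℝ) + 1) * t ^ e ≤ Real.exp (4 * t) := by
  have h2 := geo_id t n
  have h3 := exp_ge t h0 h1
  have h4 : 0 ≤ ((n : ℝ) + 1 - n * t) * t ^ n := by
    have : 0 ≤ (n : ℝ) * (1 - t) := mul_nonneg (Nat.cast_nonneg n) (by linarith)
    exact mul_nonneg (by nlinarith) (pow_nonneg h0 n)
  have h5 : (∑ e ∈ range n, ((e : ℝ) + 1) * t ^ e) * (1 - t) ^ 2 ≤ 1 := by linarith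
  have h6 : Real.exp (4 * t) = Real.exp (2 * t) ^ 2 := by
    rw [← Real.exp_nat_mul]; congr 1; push_cast; ring
  have h7 : 1 ≤ Real.exp (4 * t) * (1 - t) ^ 2 := by
    rw [h6, ← mul_pow]
    exact one_le_pow₀ h3
  have h8 : 0 < (1 - t) ^ 2 := by
    have : 0 < 1 - t := by linarith
    positivity
  exact le_of_mul_le_mul_right (h5.trans h7) h8

lemma box_le {m : ℕ} (t : ℝ) (h0 : 0 ≤ t) (h1 : t ≤ 3 / 4) (L : ℕ) :
    ∑ f ∈ Fintype.piFinset (fun _ : Fin m => range L), ∏ i, ((f i : ℝ) + 1) * t ^ f i ≤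
      Real.exp (4 * t * m) := by
  rw [← Finset.prod_univ_sum (fun _ : Fin m => range L) (fun _ e => ((e : ℝ) + 1) * t ^ e)]
  rw [prod_const, card_univ, Fintype.card_fin, mul_comm (4 * t) (m : ℝ), Real.exp_nat_mul]
  exact pow_le_pow_left₀ (sum_nonneg fun e _ => by positivity) (geo_le t h0 h1 L) m

lemma local_bound {m : ℕ} (hm : 1 ≤ m) {y : ℝ} (hy : 0 ≤ y) (hy' : y ≤ 3 / 4) (L : ℕ) :
    ∑ f ∈ Fintype.piFinset (fun _ : Fin m => range L), MOM.A y f ≤ Real.exp (36 * (m : ℝ) ^ 2 * y ^ 2) := by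
  classical
  have hm0 : (0 : ℝ) < m := by exact_mod_cast hm
  have hm1 : (1 : ℝ) ≤ m := by exact_mod_cast hm
  set t : ℝ := 3 / (4 * m) with ht
  have ht0 : 0 < t := by positivity
  have ht1 : t ≤ 3 / 4 := by
    rw [ht]
    exact div_le_div_of_nonneg_left (by norm_num) (by norm_num) (by linarith)
  have hmt : m * t = 3 / 4 := by rw [ht]; field_simp
  rcases le_or_gt y t with hyt | hyt
  · have key : ∀ f : Fin m → ℕ, MOM.A y f ≤ (if f = 0 then 1 else 0) +
        (y / t) ^ 2 * ∏ i, ((f i : ℝ) + 1) * t ^ f i := by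
      intro f
      have hpos : 0 ≤ (y / t) ^ 2 * ∏ i, ((f i : ℝ) + 1) * t ^ f i :=
        mul_nonneg (by positivity) (prod_nonneg fun i _ => by positivity)
      unfold MOM.A
      by_cases h1 : ∑ i, f i = 1
      · rw [if_pos h1]
        split_ifs <;> linarith
      · rw [if_neg h1]
        by_cases h0 : f = 0
        · rw [if_pos h0]
          have : ∏ i, ((f i : ℝ) + 1) * y ^ f i = 1 := by
            rw [h0]; simp
          rw [this]; linarith
        · rw [if_neg h0, zero_add]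
          have hs : 2 ≤ ∑ i, f i := by
            rcases Nat.lt_or_ge (∑ i, f i) 2 with h | h
            · exfalso
              have : ∑ i, f i = 0 := by omega
              apply h0
              funext i
              exact (Finset.sum_eq_zero_iff.1 this) i (mem_univ i)
            · exact h
          obtain ⟨s, hs'⟩ := Nat.exists_eq_add_of_le hs
          rw [prod_mul_distrib, prod_mul_distrib, prod_pow_eq_pow_sum, prod_pow_eq_pow_sum, hs']
          have h3 : y ^ s ≤ t ^ s := pow_le_pow_left₀ hy hyt s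
          have h4 : 0 ≤ ∏ i, ((f i : ℝ) + 1) := prod_nonneg fun i _ => by positivity
          have h5 : y ^ (2 + s) ≤ (y / t) ^ 2 * t ^ (2 + s) := by
            rw [pow_add, pow_add]
            have : (y / t) ^ 2 * (t ^ 2 * t ^ s) = y ^ 2 * t ^ s := by
              field_simp
            rw [this]
            exact mul_le_mul_of_nonneg_left h3 (by positivity)
          calc (∏ i, ((f i : ℝ) + 1)) * y ^ (2 + s)
              ≤ (∏ i, ((f i : ℝ) + 1)) * ((y / t) ^ 2 * t ^ (2 + s)) :=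
                mul_le_mul_of_nonneg_left h5 h4
            _ = _ := by ring
    refine (sum_le_sum fun f _ => key f).trans ?_
    rw [sum_add_distrib, ← mul_sum]
    have h1 : ∑ f ∈ Fintype.piFinset (fun _ : Fin m => range L), (if f = 0 then (1 : ℝ) else 0) ≤ 1 := by
      rw [sum_ite_eq']
      split_ifs <;> norm_num
    have h2 := box_le (m := m) t ht0.le ht1 L
    have h3 : Real.exp (4 * t * m) ≤ 81 / 4 := by
      have : 4 * t * m = 3 := by linarith [hmt]
      rw [this]
      have h4 : Real.exp 3 = Real.exp 1 ^ 3 := by rw [← Real.exp_nat_mul]; norm_num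
      rw [h4]
      have h5 := Real.exp_one_lt_d9
      have h6 : Real.exp 1 ^ 3 ≤ (2.7182818286 : ℝ) ^ 3 := pow_le_pow_left₀ (Real.exp_pos 1).le h5.le 3
      refine h6.trans (by norm_num)
    have h4 : (y / t) ^ 2 = 16 / 9 * (m : ℝ) ^ 2 * y ^ 2 := by
      rw [ht]; field_simp; ring
    have h5 : (y / t) ^ 2 * ∑ f ∈ Fintype.piFinset (fun _ : Fin m => range L),
        ∏ i, ((f i : ℝ) + 1) * t ^ f i ≤ 16 / 9 * (m : ℝ) ^ 2 * y ^ 2 * (81 / 4) := by
      rw [h4]
      exact mul_le_mul_of_nonneg_left (h2.trans h3) (by positivity)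
    have h6 := Real.add_one_le_exp (36 * (m : ℝ) ^ 2 * y ^ 2)
    linarith
  · have key : ∀ f : Fin m → ℕ, MOM.A y f ≤ ∏ i, ((f i : ℝ) + 1) * y ^ f i := by
      intro f
      unfold MOM.A
      split_ifs
      · exact prod_nonneg fun i _ => by positivity
      · exact le_rfl
    refine (sum_le_sum fun f _ => key f).trans ((box_le y hy hy' L).trans ?_)
    rw [Real.exp_le_exp]
    have h1 : 3 / 4 < m * y := by
      rw [← hmt]
      exact mul_lt_mul_of_pos_left hyt hm0
    have h2 : 0 ≤ (m : ℝ) * y := by positivity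
    nlinarith

end MOM2

theorem pMOM2 : S_MOM2 := by
  refine ⟨36, by norm_num, ?_⟩
  intro m hm1 ι _ Ω _ P _ X hm hind hb h0 β B e c y hinj hy hc
  classical
  -- expand
  have h1 : ∀ ω, (∑ a ∈ B, c a * ∏ v, hk (e a v) (X v ω)) ^ m =
      ∑ p ∈ Fintype.piFinset (fun _ : Fin m => B),
        (∏ i, c (p i)) * ∏ v, ∏ i, hk (e (p i) v) (X v ω) := by
    intro ω
    have : (∑ a ∈ B, c a * ∏ v, hk (e a v) (X v ω)) ^ m =
        ∏ _i : Fin m, ∑ a ∈ B, c a * ∏ v, hk (e a v) (X v ω) := by
      rw [prod_const, card_univ, Fintype.card_fin]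
    rw [this, Finset.prod_univ_sum]
    refine sum_congr rfl fun p _ => ?_
    rw [prod_mul_distrib]
    congr 1
    exact Finset.prod_comm
  simp_rw [h1]
  have hint : ∀ p : Fin m → β, Integrable (fun ω => (∏ i, c (p i)) * ∏ v, ∏ i, hk (e (p i) v) (X v ω)) P := by
    intro p
    refine Integrable.const_mul ?_ _
    refine Integrable.of_bound (C := ∏ v, ∏ i, ((e (p i) v : ℝ) + 1)) ?_ (Filter.Eventually.of_forall ?_)
    · refine Measurable.aestronglyMeasurable ?_
      refine Finset.measurable_prod _ fun v _ => Finset.measurable_prod _ fun i _ => ?_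
      exact (MOM.hk_cont _).1.measurable.comp (hm v)
    · intro ω
      rw [Real.norm_eq_abs, abs_prod]
      refine prod_le_prod (fun v _ => abs_nonneg _) fun v _ => ?_
      rw [abs_prod]
      exact prod_le_prod (fun i _ => abs_nonneg _) fun i _ => MOM.hk_bound _ _ (hb v ω)
  rw [integral_finsetSum _ fun p _ => hint p]
  -- each term
  have h2 : ∀ p ∈ Fintype.piFinset (fun _ : Fin m => B),
      ∫ ω, (∏ i, c (p i)) * ∏ v, ∏ i, hk (e (p i) v) (X v ω) ∂P ≤ ∏ v, MOM.A (y v) fun i => e (p i) v := by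
    intro p hp
    rw [integral_const_mul]
    refine (le_abs_self _).trans ?_
    rw [abs_mul, abs_prod]
    have h3 := MOM.int_prod hm hind hb h0 (fun v i => e (p i) v)
    have h4 : ∏ i, |c (p i)| ≤ ∏ i, ∏ v, y v ^ e (p i) v :=
      prod_le_prod (fun i _ => abs_nonneg _) fun i _ => hc _ (Fintype.mem_piFinset.1 hp i)
    rw [Finset.prod_comm] at h4
    refine (mul_le_mul h4 h3 (abs_nonneg _) (prod_nonneg fun v _ => prod_nonneg fun i _ =>
      pow_nonneg (hy v).1 _)).trans ?_
    rw [← prod_mul_distrib]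
    refine le_of_eq (prod_congr rfl fun v _ => ?_)
    unfold MOM.A
    split_ifs
    · rw [mul_zero]
    · rw [← prod_mul_distrib]
      exact prod_congr rfl fun i _ => mul_comm _ _
  refine (sum_le_sum h2).trans ?_
  -- injection
  set L : ℕ := (B.sup fun a => univ.sup fun v => e a v) + 1 with hL
  have hle : ∀ a ∈ B, ∀ v, e a v < L := by
    intro a ha v
    have h5 : e a v ≤ univ.sup fun v => e a v := Finset.le_sup (f := fun v => e a v) (mem_univ v)
    have h6 : (univ.sup fun v => e a v) ≤ B.sup fun a => univ.sup fun v => e a v :=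
      Finset.le_sup (f := fun a => univ.sup fun v => e a v) ha
    omega
  have h7 : ∑ p ∈ Fintype.piFinset (fun _ : Fin m => B), ∏ v, MOM.A (y v) (fun i => e (p i) v) ≤
      ∑ q ∈ Fintype.piFinset (fun _ : ι => Fintype.piFinset (fun _ : Fin m => range L)),
        ∏ v, MOM.A (y v) (q v) := by
    have h8 : Set.InjOn (fun (p : Fin m → β) (v : ι) (i : Fin m) => e (p i) v)
        (Fintype.piFinset (fun _ : Fin m => B) : Set (Fin m → β)) := by
      intro p hp p' hp' hpp
      rw [mem_coe, Fintype.mem_piFinset] at hp hp'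
      funext i
      refine hinj _ (hp i) _ (hp' i) ?_
      funext v
      exact congrFun (congrFun hpp v) i
    rw [← sum_image (f := fun q : ι → Fin m → ℕ => ∏ v, MOM.A (y v) (q v)) h8]
    refine sum_le_sum_of_subset_of_nonneg ?_ fun q _ _ => prod_nonneg fun v _ => MOM.A_nonneg (hy v).1 _
    intro q hq
    rw [mem_image] at hq
    obtain ⟨p, hp, rfl⟩ := hq
    rw [Fintype.mem_piFinset] at hp
    rw [Fintype.mem_piFinset]
    intro v
    rw [Fintype.mem_piFinset]
    intro i
    exact mem_range.2 (hle _ (hp i) v)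
  refine h7.trans ?_
  rw [← Finset.prod_univ_sum (fun _ : ι => Fintype.piFinset (fun _ : Fin m => range L))
    (fun v f => MOM.A (y v) f)]
  refine (prod_le_prod (fun v _ => sum_nonneg fun f _ => MOM.A_nonneg (hy v).1 _)
    fun v _ => MOM2.local_bound hm1 (hy v).1 (hy v).2 L).trans ?_
  rw [← Real.exp_sum, ← mul_sum]

end Pool.Agent.T2H51.LQ
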