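import Pool.Agent.T2H51.LQ.FIN
import Pool.Agent.T2H51.LQ.MOM2

/-! # Assembly, second part -/

set_option autoImplicit false

open MeasureTheory ProbabilityTheory Filter Finset IsDedekindDomain NumberField

namespace Pool.Agent.T2H51.LQ

namespace FIN2

section
variable {F : Type} [Field F] [NumberField F]

/-- the moment bound for the sum over the ideals of norm at most `N`, uniformly in the order -/
lemma moment (hORD : S_ORD) (hMOM : S_MOM2) (hPS : S_PS) (F : Type) [Field F] [NumberField F] :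
    ∃ K : ℝ, 0 ≤ K ∧ ∀ (m : ℕ), 1 ≤ m → ∀ (Ω : Type) [MeasurableSpace Ω] (P : Measure Ω) [IsProbabilityMeasure P]
    (X : HeightOneSpectrum (𝓞 F) → Ω → ℝ), (∀ v, Measurable (X v)) → iIndepFun X P →
    (∀ v ω, |X v ω| ≤ 2) → (∀ v, ∫ ω, X v ω ∂P = 0) → ∀ (D : 𝓞 F) (N : ℕ),
      ∫ ω, S (fun v => X v ω) D (fun _ => 1) N ^ m ∂P ≤
        Real.exp (K * (m : ℝ) ^ 2 * Real.log (Real.log ((N : ℝ) + 16))) := by
  classical
  obtain ⟨K, hK, hmom⟩ := hMOM
  obtain ⟨C, hC, hps⟩ := hPS F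
  obtain ⟨hfin, hT, hinj, h2, -⟩ := hORD F
  refine ⟨K * C, mul_nonneg hK hC, ?_⟩
  intro m hm1 Ω _ P _ X hm hind hb h0 D N
  -- the primes
  set T : Finset (HeightOneSpectrum (𝓞 F)) := (B F N).attach.biUnion fun I =>
    (hfin I.1 (FIN.mem_B.1 I.2).1).toFinset with hTdef
  have hTmem : ∀ I ∈ B F N, ∀ v, ordI v I ≠ 0 → v ∈ T := by
    intro I hI v hv
    rw [hTdef, mem_biUnion]
    refine ⟨⟨I, hI⟩, mem_attach _ _, ?_⟩
    rw [Set.Finite.mem_toFinset]
    exact hv
  have hq : ∀ v : HeightOneSpectrum (𝓞 F), (2 : ℝ) ≤ Ideal.absNorm v.asIdeal := fun v => by exact_mod_cast h2 v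
  have hTN : ∀ v ∈ T, Ideal.absNorm v.asIdeal ≤ N := by
    intro v hv
    rw [hTdef, mem_biUnion] at hv
    obtain ⟨I, -, hI⟩ := hv
    rw [Set.Finite.mem_toFinset] at hI
    obtain ⟨hI0, hIN⟩ := FIN.mem_B.1 I.2
    obtain ⟨h3, -, -⟩ := hT I.1 T hI0 (hTmem I.1 I.2)
    have hvT : v ∈ T := hTmem I.1 I.2 v hI
    rw [← Finset.mul_prod_erase _ _ hvT] at h3
    have h4 : (1 : ℝ) ≤ ∏ w ∈ T.erase v, (Ideal.absNorm w.asIdeal : ℝ) ^ ordI w I.1 := by
      rw [← Finset.prod_const_one (s := T.erase v)]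
      exact prod_le_prod (fun _ _ => by norm_num) fun w _ => one_le_pow₀ (by linarith [hq w])
    have h5 : (Ideal.absNorm v.asIdeal : ℝ) ≤ (Ideal.absNorm v.asIdeal : ℝ) ^ ordI v I.1 :=
      le_self_pow₀ (by linarith [hq v]) hI
    have h6 : (Ideal.absNorm v.asIdeal : ℝ) ≤ Ideal.absNorm I.1 := by
      rw [h3]
      have h7 : 0 ≤ (Ideal.absNorm v.asIdeal : ℝ) ^ ordI v I.1 := by positivity
      nlinarith
    have h7 : Ideal.absNorm v.asIdeal ≤ Ideal.absNorm I.1 := by exact_mod_cast h6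
    exact h7.trans hIN
  set y : HeightOneSpectrum (𝓞 F) → ℝ := fun v => (Ideal.absNorm v.asIdeal : ℝ) ^ (-(1 / 2 : ℝ)) with hy
  have hy0 : ∀ v, 0 ≤ y v := fun v => by
    have := hq v
    positivity
  have hy1 : ∀ v, y v ≤ 3 / 4 := by
    intro v
    have h3 : y v ≤ (2 : ℝ) ^ (-(1 / 2 : ℝ)) :=
      Real.rpow_le_rpow_of_nonpos (by norm_num) (hq v) (by norm_num)
    have h5 : (2 : ℝ) ^ (-(1 / 2 : ℝ)) ≤ 3 / 4 := by
      rw [Real.rpow_neg (by norm_num), ← Real.sqrt_eq_rpow, inv_le_comm₀ (by positivity) (by norm_num)]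
      rw [Real.le_sqrt (by norm_num) (by norm_num)]
      norm_num
    linarith
  set c : Ideal (𝓞 F) → ℝ := fun I => chi D I / Real.sqrt (Ideal.absNorm I) with hc
  have hmain := hmom m hm1 T Ω P (fun v ω => X v.1 ω) (fun v => hm v.1)
    (hind.precomp Subtype.val_injective) (fun v ω => hb v.1 ω) (fun v => h0 v.1)
    (Ideal (𝓞 F)) (B F N) (fun I v => ordI v.1 I) c (fun v => y v.1)
    (by
      intro I hI J hJ hIJ
      refine hinj I J (FIN.mem_B.1 hI).1 (FIN.mem_B.1 hJ).1 fun v => ?_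
      by_cases hv : v ∈ T
      · exact congrFun hIJ ⟨v, hv⟩
      · have h3 : ordI v I = 0 := by_contra fun h => hv (hTmem I hI v h)
        have h4 : ordI v J = 0 := by_contra fun h => hv (hTmem J hJ v h)
        rw [h3, h4])
    (fun v => ⟨hy0 v.1, hy1 v.1⟩)
    (by
      intro I hI
      obtain ⟨hI0, hIN⟩ := FIN.mem_B.1 hI
      obtain ⟨h3, -, h5⟩ := hT I T hI0 (hTmem I hI)
      have hpos : (0 : ℝ) < Ideal.absNorm I := by exact_mod_cast FIN.norm_pos hI0
      have h6 : ∏ v : T, y v.1 ^ ordI v.1 I = (Ideal.absNorm I : ℝ) ^ (-(1 / 2 : ℝ)) := by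
        rw [Finset.prod_coe_sort T (fun v => y v ^ ordI v I), h3,
          ← Real.finsetProd_rpow _ _ fun v _ => by positivity]
        refine prod_congr rfl fun v _ => ?_
        rw [hy]
        simp only
        rw [← Real.rpow_natCast, ← Real.rpow_mul (by positivity), ← Real.rpow_natCast,
          ← Real.rpow_mul (by positivity), mul_comm]
      rw [h6, hc]
      simp only
      rw [abs_div, abs_of_nonneg (Real.sqrt_nonneg _), Real.rpow_neg hpos.le, ← Real.sqrt_eq_rpow, div_eq_mul_inv]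
      exact mul_le_of_le_one_left (by positivity) (h5 D))
  -- identify the sum
  have hS : ∀ ω, S (fun v => X v ω) D (fun _ => 1) N =
      ∑ I ∈ B F N, c I * ∏ v : T, hk (ordI v.1 I) (X v.1 ω) := by
    intro ω
    unfold S
    refine sum_congr rfl fun I hI => ?_
    obtain ⟨hI0, hIN⟩ := FIN.mem_B.1 hI
    obtain ⟨-, h4, -⟩ := hT I T hI0 (hTmem I hI)
    rw [h4, Finset.prod_coe_sort T (fun v => hk (ordI v I) (X v ω)), hc]
    simp only
    ring
  simp_rw [hS]
  refine hmain.trans ?_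
  rw [Real.exp_le_exp]
  have h8 : ∑ v : T, y v.1 ^ 2 = ∑ v ∈ T, 1 / (Ideal.absNorm v.asIdeal : ℝ) := by
    rw [Finset.sum_coe_sort T (fun v => y v ^ 2)]
    refine sum_congr rfl fun v _ => ?_
    have := hq v
    rw [hy]
    simp only
    rw [← Real.rpow_natCast, ← Real.rpow_mul (by positivity)]
    norm_num
    rw [Real.rpow_neg_one]
  rw [h8]
  have h9 := mul_le_mul_of_nonneg_left (hps N T hTN) (by positivity : 0 ≤ K * (m : ℝ) ^ 2)
  refine h9.trans (le_of_eq (by ring))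

/-- measurability of the sums -/
lemma S_meas (hORD : S_ORD) {Ω : Type} [MeasurableSpace Ω]
    (X : HeightOneSpectrum (𝓞 F) → Ω → ℝ) (hm : ∀ v, Measurable (X v)) (D : 𝓞 F) (N : ℕ) :
    Measurable fun ω => S (fun v => X v ω) D (fun _ => 1) N := by
  unfold S
  refine Finset.measurable_sum _ fun I hI => ?_
  refine Measurable.mul_const (Measurable.div_const (Measurable.mul_const ?_ _) _) _
  obtain ⟨hfin, hT, -⟩ := hORD F
  obtain ⟨-, h4, -⟩ := hT I (hfin I (FIN.mem_B.1 hI).1).toFinset (FIN.mem_B.1 hI).1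
    (fun v hv => by rw [Set.Finite.mem_toFinset]; exact hv)
  simp_rw [h4]
  exact Finset.measurable_prod _ fun v _ => (MOM.hk_cont _).1.measurable.comp (hm v)

lemma S_bdd (hORD : S_ORD) {Ω : Type} (X : HeightOneSpectrum (𝓞 F) → Ω → ℝ) (hb : ∀ v ω, |X v ω| ≤ 2)
    (D : 𝓞 F) (N : ℕ) : ∃ M : ℝ, ∀ ω, |S (fun v => X v ω) D (fun _ => 1) N| ≤ M := by
  have hI : ∀ I ∈ B F N, ∃ M : ℝ, ∀ ω, |lam (fun v => X v ω) I * chi D I /
      Real.sqrt (Ideal.absNorm I) * 1| ≤ M := by
    intro I hI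
    obtain ⟨hfin, hT, -⟩ := hORD F
    obtain ⟨-, h4, -⟩ := hT I (hfin I (FIN.mem_B.1 hI).1).toFinset (FIN.mem_B.1 hI).1
      (fun v hv => by rw [Set.Finite.mem_toFinset]; exact hv)
    refine ⟨(∏ v ∈ (hfin I (FIN.mem_B.1 hI).1).toFinset, ((ordI v I : ℝ) + 1)) *
      |chi D I / Real.sqrt (Ideal.absNorm I)|, fun ω => ?_⟩
    rw [mul_one, mul_div_assoc, abs_mul, h4, abs_prod]
    refine mul_le_mul_of_nonneg_right ?_ (abs_nonneg _)
    exact prod_le_prod (fun v _ => abs_nonneg _) fun v _ => MOM.hk_bound _ _ (hb v ω)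
  choose! M hM using hI
  exact ⟨∑ I ∈ B F N, M I, fun ω => (abs_sum_le_sum_abs _ _).trans (sum_le_sum fun I hI => hM I hI ω)⟩

end

/-- `log (X + 16)` -/
noncomputable def R (x : ℝ) : ℝ := Real.log (x + 16)

lemma R_ge {x : ℝ} (hx : 0 ≤ x) : Real.exp 1 ≤ R x := by
  have h1 : Real.exp 1 ≤ Real.log 16 := by
    have h2 := Real.exp_one_lt_d9
    have h3 := Real.log_two_gt_d9
    have h4 : Real.log 16 = 4 * Real.log 2 := by
      rw [show (16 : ℝ) = 2 ^ 4 by norm_num, Real.log_pow]; norm_num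
    rw [h4]
    linarith
  exact h1.trans (Real.log_le_log (by norm_num) (by linarith))

lemma LR_ge {x : ℝ} (hx : 0 ≤ x) : 1 ≤ Real.log (R x) := by
  rw [Real.le_log_iff_exp_le ((Real.exp_pos 1).trans_le (R_ge hx))]
  exact R_ge hx

/-- the choice of the order of the moment -/
lemma choice {x : ℝ} (hx : 0 ≤ x) : ∃ k : ℕ, 1 ≤ k ∧
    Real.sqrt (R x / Real.log (R x)) ≤ k ∧ (k : ℝ) ≤ 2 * Real.sqrt (R x / Real.log (R x)) := by
  have h1 := R_ge hx
  have h2 := LR_ge hx
  have hR : 0 < R x := (Real.exp_pos 1).trans_le h1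
  have h3 : Real.log (R x) ≤ R x := (Real.log_le_sub_one_of_pos hR).trans (by linarith)
  have h4 : 1 ≤ Real.sqrt (R x / Real.log (R x)) := by
    rw [Real.one_le_sqrt, le_div_iff₀ (by linarith), one_mul]
    exact h3
  refine ⟨⌈Real.sqrt (R x / Real.log (R x))⌉₊, Nat.one_le_ceil_iff.2 (by linarith), Nat.le_ceil _, ?_⟩
  have h5 := Nat.ceil_lt_add_one (Real.sqrt_nonneg (R x / Real.log (R x)))
  linarith

end FIN2

/-- **Main theorem, second part** -/
theorem main2 (hUNI : S_UNI) (hORD : S_ORD) (hMOM : S_MOM2) (hPS : S_PS) (hAES : S_AES)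
    (F : Type) [Field F] [NumberField F] : ∃ A : ℝ, 0 < A ∧
    ∀ (Ω : Type) [MeasurableSpace Ω] (P : Measure Ω) [IsProbabilityMeasure P]
    (X : HeightOneSpectrum (𝓞 F) → Ω → ℝ), (∀ v, Measurable (X v)) → iIndepFun X P →
    (∀ v ω, |X v ω| ≤ 2) → (∀ v, ∫ ω, X v ω ∂P = 0) →
    ∀ᵐ ω ∂P, ∃ C : ℝ, ∀ D : 𝓞 F, D ≠ 0 → ∀ N : ℕ, 1 ≤ N → ∀ V : ℕ → ℝ, Antitone V →
      (∀ n, 0 ≤ V n) → (∀ n, V n ≤ 1) →
      |S (fun v => X v ω) D V N| ≤ C * Real.exp (A * Real.sqrt
        (Real.log (|(Algebra.norm ℤ D : ℝ)| * N + 16) * Real.log (Real.log (|(Algebra.norm ℤ D : ℝ)| * N + 16)))) := by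
  classical
  obtain ⟨J, hJ, rep, hrep0, hrepS, hrep⟩ := hUNI F
  obtain ⟨K, hK, hmo⟩ := FIN2.moment hORD hMOM hPS F
  set A : ℝ := 8 * K + 1 with hA
  refine ⟨A, by positivity, ?_⟩
  intro Ω _ P _ X hm hind hb h0
  set a : J → ℝ := fun j => (Ideal.absNorm (Ideal.span {rep j}) : ℝ) with ha
  have ha1 : ∀ j, 1 ≤ a j := by
    intro j
    have : Ideal.span {rep j} ≠ ⊥ := by
      rw [Ne, Ideal.span_singleton_eq_bot]; exact hrep0 j
    have h1 := FIN.norm_pos this
    have h2 : (1 : ℝ) ≤ (Ideal.absNorm (Ideal.span {rep j}) : ℝ) := by exact_mod_cast h1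
    exact h2
  set x : J × ℕ → ℝ := fun i => a i.1 * ((i.2 : ℝ) + 1) with hx
  have hx1 : ∀ i, 1 ≤ x i := by
    intro i
    have h1 := ha1 i.1
    have h2 : (1 : ℝ) ≤ (i.2 : ℝ) + 1 := by linarith [(Nat.cast_nonneg i.2 : (0 : ℝ) ≤ i.2)]
    rw [hx]
    simp only
    nlinarith
  have hx0 : ∀ i, 0 ≤ x i := fun i => zero_le_one.trans (hx1 i)
  choose k hk1 hk2 hk3 using fun i => FIN2.choice (hx0 i)
  -- the size of the sums
  set lamb : ℝ → ℝ := fun t => Real.exp (A * Real.sqrt (FIN2.R t * Real.log (FIN2.R t))) with hlamb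
  have hlpos : ∀ t, 0 < lamb t := fun t => Real.exp_pos _
  have hcount : Countable (J × ℕ) := inferInstance
  have h1 := hAES Ω P (J × ℕ) (fun i ω => S (fun v => X v ω) (rep i.1) (fun _ => 1) (i.2 + 1) ^ (2 * k i) /
      lamb (x i) ^ (2 * k i)) (fun i => 1 / a i.1 ^ 2 * (1 / ((i.2 : ℝ) + 1) ^ 2))
    (fun i => ((FIN2.S_meas hORD X hm _ _).pow_const _).div_const _)
    (fun i ω => by
      have h3 : 0 ≤ S (fun v => X v ω) (rep i.1) (fun _ => 1) (i.2 + 1) ^ (2 * k i) := by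
        rw [pow_mul]; positivity
      have := hlpos (x i)
      positivity)
    (fun i => by
      refine Integrable.div_const ?_ _
      obtain ⟨M, hM⟩ := FIN2.S_bdd hORD X hb (rep i.1) (i.2 + 1)
      refine Integrable.of_bound (C := M ^ (2 * k i)) ((FIN2.S_meas hORD X hm _ _).pow_const _).aestronglyMeasurable
        (Filter.Eventually.of_forall fun ω => ?_)
      rw [Real.norm_eq_abs, abs_pow]
      exact pow_le_pow_left₀ (abs_nonneg _) (hM ω) _)
    (fun i => by
      have h2 := hmo (2 * k i) (by have := hk1 i; omega) Ω P X hm hind hb h0 (rep i.1) (i.2 + 1)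
      rw [integral_div, div_le_iff₀ (pow_pos (hlpos _) _)]
      refine h2.trans ?_
      set r : ℝ := FIN2.R (x i) with hr
      have hr1 : Real.exp 1 ≤ r := FIN2.R_ge (hx0 i)
      have hl1 : 1 ≤ Real.log r := FIN2.LR_ge (hx0 i)
      have hr0 : 0 < r := (Real.exp_pos 1).trans_le hr1
      have hl0 : 0 < Real.log r := by linarith
      have hN : Real.log (Real.log (((i.2 + 1 : ℕ) : ℝ) + 16)) ≤ Real.log r := by
        have h3 : (((i.2 + 1 : ℕ) : ℝ)) ≤ x i := by
          rw [hx]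
          simp only
          push_cast
          have := ha1 i.1
          have h5 : (0 : ℝ) ≤ (i.2 : ℝ) + 1 := by positivity
          nlinarith
        have h4 : (0 : ℝ) ≤ ((i.2 + 1 : ℕ) : ℝ) := Nat.cast_nonneg _
        have h5 : Real.log (((i.2 + 1 : ℕ) : ℝ) + 16) ≤ r := by
          rw [hr]
          exact Real.log_le_log (by linarith) (by linarith)
        refine Real.log_le_log ?_ h5
        exact (Real.exp_pos 1).trans_le (FIN2.R_ge (x := ((i.2 + 1 : ℕ) : ℝ)) h4)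
      set q : ℝ := Real.sqrt (r / Real.log r) with hq
      have hq2 : q ^ 2 * Real.log r = r := by
        rw [hq, Real.sq_sqrt (by positivity)]
        field_simp
      have hq0 : 0 ≤ q := Real.sqrt_nonneg _
      have hqk : q ≤ k i := hk2 i
      have hkq : (k i : ℝ) ≤ 2 * q := hk3 i
      have hsq : Real.sqrt (r * Real.log r) = q * Real.log r := by
        rw [show r * Real.log r = (q * Real.log r) ^ 2 by rw [mul_pow]; nlinarith [hq2]]
        exact Real.sqrt_sq (by positivity)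
      have hmain : Real.exp (K * ((2 * k i : ℕ) : ℝ) ^ 2 * Real.log (Real.log (((i.2 + 1 : ℕ) : ℝ) + 16))) ≤
          Real.exp (-(2 * r)) * lamb (x i) ^ (2 * k i) := by
        rw [hlamb]
        simp only
        rw [← Real.exp_nat_mul, ← Real.exp_add, Real.exp_le_exp, ← hr, hsq]
        push_cast
        have h3 : K * (2 * (k i : ℝ)) ^ 2 * Real.log (Real.log ((i.2 : ℝ) + 1 + 16)) ≤ 16 * K * r := by
          have h4 : (2 * (k i : ℝ)) ^ 2 ≤ 16 * q ^ 2 := by
            have : 0 ≤ (k i : ℝ) := Nat.cast_nonneg _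
            nlinarith
          have h5 : K * (2 * (k i : ℝ)) ^ 2 * Real.log (Real.log ((i.2 : ℝ) + 1 + 16)) ≤
              K * (2 * (k i : ℝ)) ^ 2 * Real.log r := by
            refine mul_le_mul_of_nonneg_left ?_ (by positivity)
            push_cast at hN
            exact hN
          have h6 : K * (2 * (k i : ℝ)) ^ 2 * Real.log r ≤ K * (16 * q ^ 2) * Real.log r :=
            mul_le_mul_of_nonneg_right (mul_le_mul_of_nonneg_left h4 hK) hl0.le
          have h7 : K * (16 * q ^ 2) * Real.log r = 16 * K * r := by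
            linear_combination (16 * K) * hq2
          linarith
        have h4 : 2 * A * r ≤ 2 * (k i : ℝ) * (A * (q * Real.log r)) := by
          have h5 : r ≤ (k i : ℝ) * (q * Real.log r) := by
            have : q * (q * Real.log r) ≤ (k i : ℝ) * (q * Real.log r) :=
              mul_le_mul_of_nonneg_right hqk (by positivity)
            nlinarith [hq2]
          have hA0 : 0 ≤ 2 * A := by rw [hA]; positivity
          have := mul_le_mul_of_nonneg_left h5 hA0
          linarith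
        rw [hA] at h4
        rw [hA]
        linarith
      refine hmain.trans (mul_le_mul_of_nonneg_right ?_ (pow_pos (hlpos _) _).le)
      have h5 : Real.exp (-(2 * r)) = 1 / (x i + 16) ^ 2 := by
        rw [hr]
        unfold FIN2.R
        rw [Real.exp_neg, mul_comm, Real.exp_mul, Real.exp_log (by linarith [hx0 i])]
        norm_num
      rw [h5]
      have h6 : 1 / a i.1 ^ 2 * (1 / ((i.2 : ℝ) + 1) ^ 2) = 1 / x i ^ 2 := by
        rw [hx]
        simp only
        rw [mul_pow]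
        field_simp
      rw [h6]
      refine div_le_div_of_nonneg_left (by norm_num) (by have := hx1 i; positivity) ?_
      exact pow_le_pow_left₀ (hx0 i) (by linarith) 2)
    (by
      refine Summable.mul_of_nonneg (f := fun j => 1 / a j ^ 2) (g := fun n : ℕ => 1 / ((n : ℝ) + 1) ^ 2) hrepS ?_
        (fun j => by positivity) (fun n => by positivity)
      have := (summable_nat_add_iff 1).2 (Real.summable_one_div_nat_pow.2 (by norm_num : 1 < 2))
      simpa using this)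
  filter_upwards [h1] with ω hω
  obtain ⟨C, hC, hCb⟩ := hω
  refine ⟨C + 1, ?_⟩
  -- bound for the sharp cutoff
  have hsharp : ∀ (D : 𝓞 F), D ≠ 0 → ∀ n : ℕ, 1 ≤ n →
      |S (fun v => X v ω) D (fun _ => 1) n| ≤ (C + 1) * lamb (|(Algebra.norm ℤ D : ℝ)| * n) := by
    intro D hD n hn
    obtain ⟨j, u, hDu⟩ := hrep D hD
    have h1 : |(Algebra.norm ℤ D : ℝ)| = a j := by
      rw [ha]
      simp only
      rw [← FIN.span_unit (rep j) u, ← hDu, Ideal.absNorm_span_singleton]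
      rw [Nat.cast_natAbs]
      push_cast
      rfl
    have h2 : S (fun v => X v ω) D (fun _ => 1) n = S (fun v => X v ω) (rep j) (fun _ => 1) n := by
      rw [hDu]; exact FIN.S_congr_unit hORD _ _ _ _ _
    rw [h1, h2]
    obtain ⟨m, rfl⟩ : ∃ m, n = m + 1 := ⟨n - 1, by omega⟩
    have h3 := hCb (j, m)
    simp only at h3
    rw [div_le_iff₀ (pow_pos (hlpos _) _)] at h3
    have hxe : a j * ((m + 1 : ℕ) : ℝ) = x (j, m) := by rw [hx]; push_cast; rfl
    rw [hxe]
    set Sx := S (fun v => X v ω) (rep j) (fun _ => 1) (m + 1) with hSx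
    have hkk := hk1 (j, m)
    refine le_of_pow_le_pow_left₀ (n := 2 * k (j, m)) (by omega)
      (mul_nonneg (by linarith) (hlpos _).le) ?_
    have h5 : |Sx| ^ (2 * k (j, m)) = Sx ^ (2 * k (j, m)) := by
      rw [pow_mul, sq_abs, ← pow_mul]
    rw [h5, mul_pow]
    refine h3.trans (mul_le_mul_of_nonneg_right ?_ (pow_pos (hlpos _) _).le)
    have h6 : (1 : ℝ) ≤ C + 1 := by linarith
    have h7 : C + 1 ≤ (C + 1) ^ (2 * k (j, m)) := le_self_pow₀ h6 (by omega)
    linarith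
  intro D hD N hN V hV hV0 hV1
  have hnorm : (1 : ℝ) ≤ |(Algebra.norm ℤ D : ℝ)| := by
    have h1 : Algebra.norm ℤ D ≠ 0 := Algebra.norm_ne_zero_iff.2 hD
    have h2 : 1 ≤ |Algebra.norm ℤ D| := Int.one_le_abs h1
    exact_mod_cast h2
  have hgoal : (C + 1) * lamb (|(Algebra.norm ℤ D : ℝ)| * N) = (C + 1) * Real.exp (A * Real.sqrt
        (Real.log (|(Algebra.norm ℤ D : ℝ)| * N + 16) * Real.log (Real.log (|(Algebra.norm ℤ D : ℝ)| * N + 16)))) := rfl
  rw [← hgoal]
  refine FIN.S_weight _ D V hV hV0 hV1 _ N fun n hn => ?_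
  rcases Nat.eq_zero_or_pos n with h | h
  · rw [h, FIN.S_zero, abs_zero]
    exact mul_nonneg (by linarith) (hlpos _).le
  · refine (hsharp D hD n h).trans ?_
    refine mul_le_mul_of_nonneg_left ?_ (by linarith)
    have hA0 : 0 ≤ A := by rw [hA]; positivity
    rw [hlamb]
    simp only
    rw [Real.exp_le_exp]
    refine mul_le_mul_of_nonneg_left (Real.sqrt_le_sqrt ?_) hA0
    have hnN : |(Algebra.norm ℤ D : ℝ)| * n ≤ |(Algebra.norm ℤ D : ℝ)| * N := by
      have : (n : ℝ) ≤ N := by exact_mod_cast hn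
      exact mul_le_mul_of_nonneg_left this (by positivity)
    have h3 : FIN2.R (|(Algebra.norm ℤ D : ℝ)| * n) ≤ FIN2.R (|(Algebra.norm ℤ D : ℝ)| * N) := by
      unfold FIN2.R
      exact Real.log_le_log (by positivity) (by linarith)
    have h4 := FIN2.R_ge (x := |(Algebra.norm ℤ D : ℝ)| * n) (by positivity)
    have h5 := FIN2.LR_ge (x := |(Algebra.norm ℤ D : ℝ)| * n) (by positivity)
    have h6 : 0 < FIN2.R (|(Algebra.norm ℤ D : ℝ)| * n) := (Real.exp_pos 1).trans_le h4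
    exact mul_le_mul h3 (Real.log_le_log h6 h3) (by linarith) (by linarith)

end Pool.Agent.T2H51.LQ
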