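import Pool.Agent.T2H51.LQ.Stm

set_option autoImplicit false

open MeasureTheory ProbabilityTheory Filter Finset IsDedekindDomain NumberField

namespace Pool.Agent.T2H51.LQ

namespace ORD

variable {F : Type} [Field F] [NumberField F]

lemma ordI_ne_zero_iff {I : Ideal (𝓞 F)} (hI : I ≠ ⊥) (v : HeightOneSpectrum (𝓞 F)) :
    ordI v I ≠ 0 ↔ v.asIdeal ∣ I := by
  have h0 : I ≠ 0 := hI
  exact Associates.count_ne_zero_iff_dvd h0 v.irreducible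

lemma fin (I : Ideal (𝓞 F)) (hI : I ≠ ⊥) :
    {v : HeightOneSpectrum (𝓞 F) | ordI v I ≠ 0}.Finite := by
  have h0 : I ≠ 0 := hI
  refine (Ideal.finite_factors h0).subset ?_
  intro v hv
  exact (ordI_ne_zero_iff hI v).1 hv

lemma prodI (I : Ideal (𝓞 F)) (T : Finset (HeightOneSpectrum (𝓞 F))) (hI : I ≠ ⊥)
    (hT : ∀ v, ordI v I ≠ 0 → v ∈ T) : I = ∏ v ∈ T, v.asIdeal ^ ordI v I := by
  have h0 : I ≠ 0 := hI
  have h1 := Ideal.finprod_heightOneSpectrum_factorization h0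
  have h2 : ∏ᶠ v : HeightOneSpectrum (𝓞 F), v.maxPowDividing I = ∏ v ∈ T, v.maxPowDividing I := by
    refine finprod_eq_prod_of_mulSupport_subset _ ?_
    intro v hv
    refine hT v ?_
    intro h
    apply hv
    have : v.maxPowDividing I = v.asIdeal ^ ordI v I := rfl
    show v.maxPowDividing I = 1
    rw [this, h, pow_zero]
  rw [h2] at h1
  exact h1.symm

lemma absN (I : Ideal (𝓞 F)) (T : Finset (HeightOneSpectrum (𝓞 F))) (hI : I ≠ ⊥)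
    (hT : ∀ v, ordI v I ≠ 0 → v ∈ T) :
    (Ideal.absNorm I : ℝ) = ∏ v ∈ T, (Ideal.absNorm v.asIdeal : ℝ) ^ ordI v I := by
  have h := congrArg (fun J : Ideal (𝓞 F) => (Ideal.absNorm J : ℝ)) (prodI I T hI hT)
  simp only [map_prod, map_pow, Nat.cast_prod, Nat.cast_pow] at h
  exact h

lemma lamE (I : Ideal (𝓞 F)) (T : Finset (HeightOneSpectrum (𝓞 F)))
    (hT : ∀ v, ordI v I ≠ 0 → v ∈ T) (x : HeightOneSpectrum (𝓞 F) → ℝ) :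
    lam x I = ∏ v ∈ T, hk (ordI v I) (x v) := by
  unfold lam
  refine finprod_eq_prod_of_mulSupport_subset _ ?_
  intro v hv
  refine hT v ?_
  intro h
  apply hv
  show hk (ordI v I) (x v) = 1
  rw [h]
  rfl

lemma chiP_abs (D : 𝓞 F) (v : HeightOneSpectrum (𝓞 F)) : |chiP D v| ≤ 1 := by
  unfold chiP
  split_ifs <;> simp

lemma chi_abs (I : Ideal (𝓞 F)) (T : Finset (HeightOneSpectrum (𝓞 F)))
    (hT : ∀ v, ordI v I ≠ 0 → v ∈ T) (D : 𝓞 F) : |chi D I| ≤ 1 := by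
  have h : chi D I = ∏ v ∈ T, chiP D v ^ ordI v I := by
    unfold chi
    refine finprod_eq_prod_of_mulSupport_subset _ ?_
    intro v hv
    refine hT v ?_
    intro h
    apply hv
    show chiP D v ^ ordI v I = 1
    rw [h, pow_zero]
  rw [h, Finset.abs_prod]
  refine Finset.prod_le_one (fun v _ => abs_nonneg _) (fun v _ => ?_)
  rw [abs_pow]
  exact pow_le_one₀ (abs_nonneg _) (chiP_abs D v)

lemma inj (I J : Ideal (𝓞 F)) (hI : I ≠ ⊥) (hJ : J ≠ ⊥) (h : ∀ v, ordI v I = ordI v J) :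
    I = J := by
  classical
  have h1 := prodI I (fin I hI).toFinset hI (fun v hv => by simpa using hv)
  have h2 := prodI J (fin I hI).toFinset hJ (fun v hv => by simpa [h v] using hv)
  rw [h1, h2]
  refine Finset.prod_congr rfl fun v _ => ?_
  rw [h v]

lemma two_le (v : HeightOneSpectrum (𝓞 F)) : 2 ≤ Ideal.absNorm v.asIdeal := by
  have h0 : Ideal.absNorm v.asIdeal ≠ 0 := by
    intro h
    exact v.ne_bot (Ideal.absNorm_eq_zero_iff.1 h)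
  have h1 : Ideal.absNorm v.asIdeal ≠ 1 := by
    intro h
    exact v.isPrime.ne_top (Ideal.absNorm_eq_one_iff.1 h)
  omega

lemma mem1 (I : Ideal (𝓞 F)) (D : 𝓞 F) (u : (𝓞 F)ˣ) :
    (∃ x : 𝓞 F, D * (u : 𝓞 F) ^ 2 - x ^ 2 ∈ I) ↔ ∃ x : 𝓞 F, D - x ^ 2 ∈ I := by
  constructor
  · rintro ⟨x, hx⟩
    refine ⟨x * (u⁻¹ : (𝓞 F)ˣ), ?_⟩
    have h1 : D - (x * ((u⁻¹ : (𝓞 F)ˣ) : 𝓞 F)) ^ 2
        = (((u⁻¹ : (𝓞 F)ˣ) : 𝓞 F)) ^ 2 * (D * (u : 𝓞 F) ^ 2 - x ^ 2) := by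
      have h2 : (((u⁻¹ : (𝓞 F)ˣ) : 𝓞 F)) * (u : 𝓞 F) = 1 := u.inv_mul
      have h3 : (((u⁻¹ : (𝓞 F)ˣ) : 𝓞 F)) ^ 2 * (u : 𝓞 F) ^ 2 = 1 := by
        rw [← mul_pow, h2, one_pow]
      linear_combination (-D) * h3
    rw [h1]
    exact I.mul_mem_left _ hx
  · rintro ⟨x, hx⟩
    refine ⟨x * (u : 𝓞 F), ?_⟩
    have h1 : D * (u : 𝓞 F) ^ 2 - (x * (u : 𝓞 F)) ^ 2 = (u : 𝓞 F) ^ 2 * (D - x ^ 2) := by ring
    rw [h1]
    exact I.mul_mem_left _ hx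

lemma mem2 (I : Ideal (𝓞 F)) (D : 𝓞 F) (u : (𝓞 F)ˣ) : D * (u : 𝓞 F) ^ 2 ∈ I ↔ D ∈ I := by
  constructor
  · intro h
    have h2 : (((u⁻¹ : (𝓞 F)ˣ) : 𝓞 F)) * (u : 𝓞 F) = 1 := u.inv_mul
    have h3 : (((u⁻¹ : (𝓞 F)ˣ) : 𝓞 F)) ^ 2 * (u : 𝓞 F) ^ 2 = 1 := by
      rw [← mul_pow, h2, one_pow]
    have h1 : D = (((u⁻¹ : (𝓞 F)ˣ) : 𝓞 F)) ^ 2 * (D * (u : 𝓞 F) ^ 2) := by
      linear_combination (-D) * h3
    rw [h1]
    exact I.mul_mem_left _ h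
  · intro h
    exact I.mul_mem_right _ h

lemma chiP_unit (D : 𝓞 F) (u : (𝓞 F)ˣ) (v : HeightOneSpectrum (𝓞 F)) :
    chiP (D * (u : 𝓞 F) ^ 2) v = chiP D v := by
  classical
  have e1 := mem2 v.asIdeal D u
  have e2 := mem1 (v.asIdeal ^ (2 * ordI v (Ideal.span {2}))) D u
  have e3 := mem1 (v.asIdeal ^ (2 * ordI v (Ideal.span {2}) + 1)) D u
  have g1 : (D * (u : 𝓞 F) ^ 2 ∈ v.asIdeal ∨ ¬ ∃ x : 𝓞 F, D * (u : 𝓞 F) ^ 2 - x ^ 2 ∈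
      v.asIdeal ^ (2 * ordI v (Ideal.span {2}))) ↔ (D ∈ v.asIdeal ∨ ¬ ∃ x : 𝓞 F, D - x ^ 2 ∈
      v.asIdeal ^ (2 * ordI v (Ideal.span {2}))) := by
    rw [e1, e2]
  unfold chiP
  simp only [g1, e3]

lemma chi_unit (D : 𝓞 F) (u : (𝓞 F)ˣ) (I : Ideal (𝓞 F)) :
    chi (D * (u : 𝓞 F) ^ 2) I = chi D I := by
  unfold chi
  exact finprod_congr fun v => by rw [chiP_unit]

end ORD

theorem pORD : S_ORD := by
  intro F _ _
  refine ⟨ORD.fin, ?_, ORD.inj, ORD.two_le, ORD.chi_unit⟩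
  intro I T hI hT
  exact ⟨ORD.absN I T hI hT, ORD.lamE I T hT, ORD.chi_abs I T hT⟩

end Pool.Agent.T2H51.LQ
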