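import Pool.Agent.T2H51.LQ.Stm2
import Pool.Agent.Erdos456.Mertens

set_option autoImplicit false

open MeasureTheory ProbabilityTheory Filter Finset IsDedekindDomain NumberField

namespace Pool.Agent.T2H51.LQ

namespace PS

variable {F : Type} [Field F] [NumberField F]

lemma exP (v : HeightOneSpectrum (𝓞 F)) :
    ∃ p : ℕ, p.Prime ∧ ((p : ℕ) : 𝓞 F) ∈ v.asIdeal ∧ p ∣ Ideal.absNorm v.asIdeal := by
  haveI := v.isPrime
  haveI : Finite (𝓞 F ⧸ v.asIdeal) := Ideal.finiteQuotientOfFreeOfNeBot v.asIdeal v.ne_bot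
  obtain ⟨p, hp⟩ := CharP.exists (𝓞 F ⧸ v.asIdeal)
  have hpp : p.Prime := by
    rcases CharP.char_is_prime_or_zero (𝓞 F ⧸ v.asIdeal) p with h | h
    · exact h
    · subst h
      exact absurd (CharP.charP_to_charZero (𝓞 F ⧸ v.asIdeal)) (fun h0 => by
        haveI := h0
        exact not_finite (𝓞 F ⧸ v.asIdeal))
  have key : ∀ n : ℕ, ((n : ℕ) : 𝓞 F) ∈ v.asIdeal ↔ p ∣ n := by
    intro n
    rw [← CharP.cast_eq_zero_iff (𝓞 F ⧸ v.asIdeal) p n, ← Ideal.Quotient.eq_zero_iff_mem,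
      map_natCast]
  exact ⟨p, hpp, (key p).2 dvd_rfl, (key _).1 (Ideal.absNorm_mem v.asIdeal)⟩

noncomputable def pf (v : HeightOneSpectrum (𝓞 F)) : ℕ := (exP v).choose

lemma pf_prime (v : HeightOneSpectrum (𝓞 F)) : (pf v).Prime := (exP v).choose_spec.1

lemma pf_mem (v : HeightOneSpectrum (𝓞 F)) : ((pf v : ℕ) : 𝓞 F) ∈ v.asIdeal :=
  (exP v).choose_spec.2.1

lemma pf_dvd (v : HeightOneSpectrum (𝓞 F)) : pf v ∣ Ideal.absNorm v.asIdeal :=
  (exP v).choose_spec.2.2

lemma norm_pos (v : HeightOneSpectrum (𝓞 F)) : 0 < Ideal.absNorm v.asIdeal := by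
  rw [Nat.pos_iff_ne_zero, Ne, Ideal.absNorm_eq_zero_iff]
  exact v.ne_bot

lemma pf_le (v : HeightOneSpectrum (𝓞 F)) : pf v ≤ Ideal.absNorm v.asIdeal :=
  Nat.le_of_dvd (norm_pos v) (pf_dvd v)

lemma card_le (T : Finset (HeightOneSpectrum (𝓞 F))) (p : ℕ) (hp : p.Prime) :
    (T.filter fun v => pf v = p).card ≤ Module.finrank ℚ F := by
  set A := T.filter fun v => pf v = p with hA
  have hdvd : ∏ v ∈ A, v.asIdeal ∣ Ideal.span {((p : ℕ) : 𝓞 F)} := by
    refine Finset.prod_dvd_of_coprime ?_ ?_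
    · intro v _ w _ hvw
      show IsCoprime v.asIdeal w.asIdeal
      exact (Ideal.isCoprime_iff_sup_eq).2 (by
        haveI := v.isPrime
        haveI := w.isPrime
        have hv : v.asIdeal.IsMaximal := v.isMaximal
        have hw : w.asIdeal.IsMaximal := w.isMaximal
        exact hv.coprime_of_ne hw (fun h => hvw (HeightOneSpectrum.ext h)))
    · intro v hv
      rw [Ideal.dvd_span_singleton]
      have h1 : pf v = p := (Finset.mem_filter.1 hv).2
      rw [← h1]
      exact pf_mem v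
  have h2 := Ideal.absNorm_dvd_absNorm_of_le (Ideal.dvd_iff_le.1 hdvd)
  rw [map_prod] at h2
  have h3 : Ideal.absNorm (Ideal.span {((p : ℕ) : 𝓞 F)}) = p ^ Module.finrank ℚ F := by
    rw [Ideal.absNorm_span_singleton]
    have : ((p : ℕ) : 𝓞 F) = algebraMap ℤ (𝓞 F) (p : ℤ) := by simp
    rw [this, Algebra.norm_algebraMap, RingOfIntegers.rank]
    simp [Int.natAbs_pow]
  rw [h3] at h2
  have h4 : ∏ v ∈ A, Ideal.absNorm v.asIdeal ≤ p ^ Module.finrank ℚ F :=
    Nat.le_of_dvd (pow_pos hp.pos _) h2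
  have h5 : p ^ A.card ≤ ∏ v ∈ A, Ideal.absNorm v.asIdeal := by
    rw [← Finset.prod_const]
    refine Finset.prod_le_prod' fun v hv => ?_
    have h1 : pf v = p := (Finset.mem_filter.1 hv).2
    rw [← h1]
    exact pf_le v
  exact (Nat.pow_le_pow_iff_right hp.one_lt).1 (h5.trans h4)

end PS

open PS in
theorem pPS : S_PS := by
  intro F _ _
  obtain ⟨C, hC⟩ := Pool.Agent.Erdos456.Mert.mertens_inv
  have hC0 : 0 ≤ C := (abs_nonneg _).trans (hC 3 le_rfl)
  set d : ℝ := (Module.finrank ℚ F : ℝ) with hd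
  have hd0 : 0 ≤ d := Nat.cast_nonneg _
  refine ⟨d * (1 + C), by positivity, fun N T hT => ?_⟩
  classical
  have hmaps : ∀ v ∈ T, pf v ∈ (Finset.Icc 1 (N + 3)).filter Nat.Prime := by
    intro v hv
    rw [Finset.mem_filter, Finset.mem_Icc]
    exact ⟨⟨(pf_prime v).one_lt.le, ((pf_le v).trans (hT v hv)).trans (by omega)⟩, pf_prime v⟩
  have h1 : ∑ v ∈ T, 1 / (Ideal.absNorm v.asIdeal : ℝ) ≤ ∑ v ∈ T, 1 / (pf v : ℝ) := by
    refine Finset.sum_le_sum fun v _ => ?_
    have h0 : (0 : ℝ) < pf v := by exact_mod_cast (pf_prime v).pos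
    exact one_div_le_one_div_of_le h0 (by exact_mod_cast pf_le v)
  have h2 : ∑ v ∈ T, 1 / (pf v : ℝ) ≤
      d * ∑ p ∈ (Finset.Icc 1 (N + 3)).filter Nat.Prime, (1 : ℝ) / p := by
    rw [← Finset.sum_fiberwise_of_maps_to hmaps, Finset.mul_sum]
    refine Finset.sum_le_sum fun p hp => ?_
    have hpp : p.Prime := (Finset.mem_filter.1 hp).2
    have h3 : ∑ v ∈ T.filter (fun v => pf v = p), 1 / (pf v : ℝ) =
        ((T.filter fun v => pf v = p).card : ℝ) * (1 / p) := by
      rw [Finset.sum_congr rfl (g := fun _ => (1 : ℝ) / p), Finset.sum_const, nsmul_eq_mul]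
      intro v hv
      rw [(Finset.mem_filter.1 hv).2]
    rw [h3]
    refine mul_le_mul_of_nonneg_right ?_ (by positivity)
    have h7 := card_le T p hpp
    rw [hd]
    exact_mod_cast h7
  have h4 := (abs_le.1 (hC (N + 3) (by omega))).2
  have hN : (0 : ℝ) ≤ N := Nat.cast_nonneg _
  have hl3 : 1 < Real.log ((N : ℝ) + 3) := by
    rw [Real.lt_log_iff_exp_lt (by positivity)]
    have := Real.exp_one_lt_d9
    linarith
  have h5 : Real.log (Real.log ((N + 3 : ℕ) : ℝ)) ≤ Real.log (Real.log ((N : ℝ) + 16)) := by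
    push_cast
    exact Real.log_le_log (by linarith) (Real.log_le_log (by positivity) (by linarith))
  have h6 : 1 ≤ Real.log (Real.log ((N : ℝ) + 16)) := by
    have h16 : Real.log 16 ≤ Real.log ((N : ℝ) + 16) := Real.log_le_log (by norm_num) (by linarith)
    have h17 : Real.log 16 = 4 * Real.log 2 := by
      rw [show (16 : ℝ) = 2 ^ 4 by norm_num, Real.log_pow]; norm_num
    have h18 := Real.log_two_gt_d9
    rw [Real.le_log_iff_exp_le (by linarith)]
    have := Real.exp_one_lt_d9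
    linarith
  calc ∑ v ∈ T, 1 / (Ideal.absNorm v.asIdeal : ℝ)
      ≤ d * ∑ p ∈ (Finset.Icc 1 (N + 3)).filter Nat.Prime, (1 : ℝ) / p := h1.trans h2
    _ ≤ d * (Real.log (Real.log ((N : ℝ) + 16)) + C) := by
        refine mul_le_mul_of_nonneg_left ?_ hd0
        linarith
    _ ≤ d * ((1 + C) * Real.log (Real.log ((N : ℝ) + 16))) := by
        refine mul_le_mul_of_nonneg_left ?_ hd0
        nlinarith
    _ = d * (1 + C) * Real.log (Real.log ((N : ℝ) + 16)) := by ring

end Pool.Agent.T2H51.LQ
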