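import Pool.Agent.T2H51.LQ.ZET

set_option autoImplicit false

open MeasureTheory ProbabilityTheory Filter Finset IsDedekindDomain NumberField

namespace Pool.Agent.T2H51.LQ

namespace UNI

variable (F : Type) [Field F] [NumberField F]

/-- units modulo squares of units -/
abbrev Q : Type := (𝓞 F)ˣ ⧸ (powMonoidHom 2 : (𝓞 F)ˣ →* (𝓞 F)ˣ).range

instance : Finite (Q F) := by
  have h1 : Monoid.FG (𝓞 F)ˣ := inferInstance
  have h2 : Group.FG (𝓞 F)ˣ := Group.fg_iff_monoid_fg.2 h1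
  have h3 : (powMonoidHom 2 : (𝓞 F)ˣ →* (𝓞 F)ˣ).range.FiniteIndex :=
    Subgroup.finiteIndex_range_powMonoidHom_of_fg (𝓞 F)ˣ (n := 2) (by norm_num)
  exact Subgroup.finite_quotient_of_finiteIndex

/-- principal nonzero ideals -/
abbrev PI : Type := {I : Ideal (𝓞 F) // I ≠ ⊥ ∧ ∃ a : 𝓞 F, I = Ideal.span {a}}

variable {F}

noncomputable def gen (I : PI F) : 𝓞 F := I.2.2.choose

lemma gen_spec (I : PI F) : I.1 = Ideal.span {gen I} := I.2.2.choose_spec

noncomputable def rep (j : PI F × Q F) : 𝓞 F := gen j.1 * ((Quotient.out j.2 : (𝓞 F)ˣ) : 𝓞 F)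

lemma gen_ne (I : PI F) : gen I ≠ 0 := by
  intro h
  apply I.2.1
  rw [gen_spec I, h]
  simp

lemma rep_ne (j : PI F × Q F) : rep j ≠ 0 :=
  mul_ne_zero (gen_ne j.1) (Units.ne_zero _)

lemma span_rep (j : PI F × Q F) : Ideal.span {rep j} = j.1.1 := by
  rw [gen_spec j.1]
  unfold rep
  exact Ideal.span_singleton_mul_right_unit (Units.isUnit _) _

lemma cover (D : 𝓞 F) (hD : D ≠ 0) : ∃ j : PI F × Q F, ∃ u : (𝓞 F)ˣ, D = rep j * (u : 𝓞 F) ^ 2 := by
  let I : PI F := ⟨Ideal.span {D}, by simpa using hD, D, rfl⟩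
  have h1 : Ideal.span {D} = Ideal.span {gen I} := gen_spec I
  rw [Ideal.span_singleton_eq_span_singleton] at h1
  obtain ⟨w, hw⟩ := h1.symm
  -- gen I * w = D
  let q : Q F := QuotientGroup.mk w
  have h2 : (QuotientGroup.mk (Quotient.out q) : Q F) = QuotientGroup.mk w := by
    exact Quotient.out_eq' q
  rw [QuotientGroup.eq] at h2
  obtain ⟨u, hu⟩ := h2
  refine ⟨(I, q), u, ?_⟩
  have h3 : (u : (𝓞 F)ˣ) ^ 2 = (Quotient.out q)⁻¹ * w := by simpa using hu
  have h4 : (Quotient.out q) * u ^ 2 = w := by rw [h3]; group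
  have h5 : ((Quotient.out q : (𝓞 F)ˣ) : 𝓞 F) * (u : 𝓞 F) ^ 2 = w := by
    have := congrArg (fun z : (𝓞 F)ˣ => (z : 𝓞 F)) h4
    simpa using this
  show D = gen I * ((Quotient.out q : (𝓞 F)ˣ) : 𝓞 F) * (u : 𝓞 F) ^ 2
  rw [mul_assoc, h5, hw]

lemma summ : Summable (fun j : PI F × Q F => 1 / (Ideal.absNorm (Ideal.span {rep j}) : ℝ) ^ 2) := by
  have h0 := ZET.sumI F 2 (by norm_num)
  have h1 : Summable (fun I : PI F => 1 / (Ideal.absNorm I.1 : ℝ) ^ 2) := by
    have h2 := h0.comp_injective (i := fun I : PI F => (⟨I.1, I.2.1⟩ : {I : Ideal (𝓞 F) // I ≠ ⊥}))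
      (by
        intro I J h
        have : I.1 = J.1 := (Subtype.mk.injEq _ _ _ _).mp h
        exact Subtype.ext this)
    refine h2.congr fun I => ?_
    simp only [Function.comp_apply]
    have h3 : (Ideal.absNorm I.1 : ℝ) ^ (2 : ℝ) = (Ideal.absNorm I.1 : ℝ) ^ 2 := by
      have := Real.rpow_natCast (Ideal.absNorm I.1 : ℝ) 2
      simpa using this
    rw [Real.rpow_neg (Nat.cast_nonneg _), one_div, h3]
  have h3 : Summable (fun _ : Q F => (1 : ℝ)) := Summable.of_finite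
  have h4 := h1.mul_of_nonneg h3 (fun I => by positivity) (fun _ => zero_le_one)
  refine h4.congr fun j => ?_
  rw [span_rep, mul_one]

lemma cnt : Countable (PI F × Q F) := by
  have h := (summ (F := F)).countable_support
  have h1 : Function.support (fun j : PI F × Q F =>
      1 / (Ideal.absNorm (Ideal.span {rep j}) : ℝ) ^ 2) = Set.univ := by
    ext j
    simp only [Function.mem_support, Set.mem_univ, iff_true]
    have h2 : Ideal.absNorm (Ideal.span {rep j}) ≠ 0 := by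
      rw [Ne, Ideal.absNorm_eq_zero_iff]
      simpa using rep_ne j
    positivity
  rw [h1] at h
  exact Set.countable_univ_iff.1 h

end UNI

theorem pUNI : S_UNI := by
  intro F _ _
  exact ⟨UNI.PI F × UNI.Q F, UNI.cnt, UNI.rep, UNI.rep_ne, UNI.summ, UNI.cover⟩

end Pool.Agent.T2H51.LQ
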