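import Pool.Agent.T2H51.LQ.Stm

set_option autoImplicit false

open MeasureTheory ProbabilityTheory Filter Finset IsDedekindDomain NumberField

namespace Pool.Agent.T2H51.LQ

namespace ZET

open Ideal Topology nonZeroDivisors

variable (K : Type) [Field K] [NumberField K]

lemma tend : ∃ c : ℝ, Tendsto (fun n : ℕ => (∑ k ∈ Finset.Icc 1 n,
    (Nat.card {I : Ideal (𝓞 K) // absNorm I = k} : ℝ)) / (n : ℝ)) atTop (𝓝 c) := by
  refine ⟨_, ((NumberField.Ideal.tendsto_norm_le_div_atTop₀ K).comp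
    tendsto_natCast_atTop_atTop).congr fun n ↦ ?_⟩
  simp only [Function.comp_apply, Nat.cast_le, ← Nat.cast_sum]
  congr
  rw [← add_left_inj 1, ← card_norm_le_eq_card_norm_le_add_one,
    show Finset.Icc 1 n = Finset.Ioc 0 n from Finset.Icc_succ_left_eq_Ioc _ _,
    show 1 = Nat.card {I : Ideal (𝓞 K) // absNorm I = 0} by simp [Ideal.absNorm_eq_zero_iff],
    Finset.sum_Ioc_add_eq_sum_Icc (n.zero_le),
    ← Finset.card_preimage_eq_sum_card_image_eq (fun k _ ↦ finite_setOfPred_absNorm_eq k)]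
  simp [Set.coe_eq_subtype]

lemma lsum (σ : ℝ) (hσ : 1 < σ) :
    LSeriesSummable (fun n => ((Nat.card {I : Ideal (𝓞 K) // absNorm I = n} : ℝ) : ℂ)) (σ : ℂ) := by
  obtain ⟨c, hc⟩ := tend K
  refine LSeriesSummable_of_sum_norm_bigO_and_nonneg (r := 1) ?_ (fun _ => Nat.cast_nonneg _)
    zero_le_one (by simpa using hσ)
  simp only [Real.rpow_one]
  refine Asymptotics.isBigO_of_div_tendsto_nhds (c := c) ?_ ?_
  · filter_upwards [eventually_gt_atTop 0] with n hn h
    exact absurd h (by exact_mod_cast hn.ne')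
  · exact hc

lemma sumI (σ : ℝ) (hσ : 1 < σ) :
    Summable (fun I : {I : Ideal (𝓞 K) // I ≠ ⊥} => (Ideal.absNorm I.1 : ℝ) ^ (-σ)) := by
  classical
  have h := (lsum K σ hσ).norm
  let N : {I : Ideal (𝓞 K) // I ≠ ⊥} → ℕ := fun I => absNorm I.1
  rw [← (Equiv.sigmaFiberEquiv N).summable_iff]
  have hfin : ∀ n : ℕ, Finite {I : {I : Ideal (𝓞 K) // I ≠ ⊥} // N I = n} := by
    intro n
    have h0 : {I : Ideal (𝓞 K) | absNorm I = n}.Finite := finite_setOfPred_absNorm_eq n
    have : Finite {I : Ideal (𝓞 K) // absNorm I = n} := h0.to_subtype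
    refine Finite.of_injective (β := {I : Ideal (𝓞 K) // absNorm I = n})
      (fun I => ⟨I.1.1, I.2⟩) ?_
    intro I J hIJ
    have : I.1.1 = J.1.1 := (Subtype.mk.injEq _ _ _ _).mp hIJ
    exact Subtype.ext (Subtype.ext this)
  refine (summable_sigma_of_nonneg ?_).2 ⟨?_, ?_⟩
  · intro x
    exact Real.rpow_nonneg (Nat.cast_nonneg _) _
  · intro n
    have := hfin n
    exact Summable.of_finite
  · refine Summable.of_nonneg_of_le ?_ ?_ h
    · intro n
      exact tsum_nonneg fun x => Real.rpow_nonneg (Nat.cast_nonneg _) _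
    · intro n
      have := hfin n
      have := Fintype.ofFinite {I : {I : Ideal (𝓞 K) // I ≠ ⊥} // N I = n}
      rw [tsum_fintype]
      have e : ∀ y : {I : {I : Ideal (𝓞 K) // I ≠ ⊥} // N I = n},
          ((fun I : {I : Ideal (𝓞 K) // I ≠ ⊥} => (Ideal.absNorm I.1 : ℝ) ^ (-σ)) ∘
            (Equiv.sigmaFiberEquiv N)) ⟨n, y⟩ = (n : ℝ) ^ (-σ) := by
        intro y
        have := y.2
        simp only [Function.comp_apply, Equiv.sigmaFiberEquiv, Equiv.coe_fn_mk]
        rw [show absNorm y.1.1 = n from this]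
      rw [Finset.sum_congr rfl (fun y _ => e y), Finset.sum_const, nsmul_eq_mul, Finset.card_univ,
        ← Nat.card_eq_fintype_card]
      rcases Nat.eq_zero_or_pos n with hn | hn
      · have hemp : IsEmpty {I : {I : Ideal (𝓞 K) // I ≠ ⊥} // N I = n} := by
          refine ⟨fun y => y.1.2 ?_⟩
          exact Ideal.absNorm_eq_zero_iff.1 (y.2.trans hn)
        rw [Nat.card_of_isEmpty, Nat.cast_zero, zero_mul]
        exact norm_nonneg _
      · rw [LSeries.term_of_ne_zero hn.ne', norm_div, Complex.norm_natCast_cpow_of_pos hn,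
          Complex.ofReal_re, Complex.norm_real, Real.norm_of_nonneg (Nat.cast_nonneg _),
          Real.rpow_neg (Nat.cast_nonneg _), ← div_eq_mul_inv]
        refine div_le_div_of_nonneg_right ?_ (Real.rpow_nonneg (Nat.cast_nonneg _) _)
        have h0 : {I : Ideal (𝓞 K) | absNorm I = n}.Finite := finite_setOfPred_absNorm_eq n
        have : Finite {I : Ideal (𝓞 K) // absNorm I = n} := h0.to_subtype
        have hle : Nat.card {I : {I : Ideal (𝓞 K) // I ≠ ⊥} // N I = n} ≤
            Nat.card {I : Ideal (𝓞 K) // absNorm I = n} := by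
          refine Nat.card_le_card_of_injective
            (fun I => (⟨I.1.1, I.2⟩ : {I : Ideal (𝓞 K) // absNorm I = n})) ?_
          intro I J hIJ
          have : I.1.1 = J.1.1 := (Subtype.mk.injEq _ _ _ _).mp hIJ
          exact Subtype.ext (Subtype.ext this)
        exact_mod_cast hle

end ZET

theorem pZET : S_ZET := by
  intro F _ _ σ hσ
  refine ⟨?_, ZET.sumI F σ hσ⟩
  have h := ZET.sumI F σ hσ
  exact h.comp_injective
    (i := fun v : HeightOneSpectrum (𝓞 F) => (⟨v.asIdeal, v.ne_bot⟩ : {I : Ideal (𝓞 F) // I ≠ ⊥}))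
    (fun v w hvw => HeightOneSpectrum.ext (congrArg Subtype.val hvw))

end Pool.Agent.T2H51.LQ
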