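import Pool.Agent.T2H51.LQ.EX
import Pool.Agent.T2H51.LQ.ORD
import Pool.Agent.T2H51.LQ.UNI
import Pool.Agent.T2H51.LQ.ZET
import Pool.Agent.T2H51.LQ.PS
import Pool.Agent.T2H51.LQ.FIN2

/-!
# All quadratic twists of a random `PGL_2` form over a number field

Let `F` be a number field. A family `x v ∈ [-2, 2]`, `v` a nonzero prime ideal, is the family of the normalised Hecke
eigenvalues of a system of unramified tempered local components of `PGL_2`, with the multiplicative function
`lam x I`, `lam x (v^(k+2)) = x v * lam x (v^(k+1)) - lam x (v^k)`. For squarefree `D` let `χ_D = chi D` be the quadratic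
character of `F(√D)/F`. The value `L(π ⊗ χ_D, 1/2)` is, by the approximate functional equation, a sum
`∑ λ(I) χ_D(I) N(I)^(-1/2) V(N(I))` with a decreasing cutoff `V` of length about `|N(D)|`.

We show: if the `x v = X v ω` are independent random variables of mean zero (the Sato-Tate law; or random signs times
any fixed system), then almost surely ALL these sums, for all `D`, all lengths `N` and all cutoffs, are at most
`C exp(A √(log Y loglog Y))`, `Y = |N(D)| N + 16`, with `A` depending on `F` only. This is the conjectured maximal order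
of the central values in the family, and it is smaller than `C Y^ε`, the Lindelof bound.
-/

set_option autoImplicit false

open MeasureTheory ProbabilityTheory IsDedekindDomain NumberField
open Pool.Agent.T2H51.LQ

namespace Pool.Agent.T2H51.LQ.All

lemma countable_primes (F : Type) [Field F] [NumberField F] : Countable (HeightOneSpectrum (𝓞 F)) := by
  have h : Countable (Ideal (𝓞 F)) := by
    have h1 : (Set.univ : Set (Ideal (𝓞 F))) = ⋃ n : ℕ, {I : Ideal (𝓞 F) | Ideal.absNorm I ≤ n} := by
      ext I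
      refine ⟨fun _ => Set.mem_iUnion.2 ⟨Ideal.absNorm I, ?_⟩, fun _ => Set.mem_univ _⟩
      rw [Set.mem_setOf_eq]
    rw [← Set.countable_univ_iff, h1]
    exact Set.countable_iUnion fun n => (Ideal.finite_setOfPred_absNorm_le (S := 𝓞 F) n).countable
  exact Function.Injective.countable (f := fun v : HeightOneSpectrum (𝓞 F) => v.asIdeal)
    fun v w hvw => HeightOneSpectrum.ext hvw

/-- For every number field `F` there is `A > 0` such that for all independent random variables `X v` (`v` the nonzero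
prime ideals) with `|X v| ≤ 2` and mean zero, almost surely: all central sums of all quadratic twists are at most
`C exp(A √(log Y loglog Y))`, `Y = |N(D)| N + 16`, hence at most `C (|N(D)| N)^ε`. There are such `X v` with the Sato-Tate
law. -/
theorem result (F : Type) [Field F] [NumberField F] :
    (∃ A : ℝ, 0 < A ∧
      ∀ (Ω : Type) [MeasurableSpace Ω] (P : Measure Ω) [IsProbabilityMeasure P]
        (X : HeightOneSpectrum (𝓞 F) → Ω → ℝ), (∀ v, Measurable (X v)) → iIndepFun X P →
        (∀ v ω, |X v ω| ≤ 2) → (∀ v, ∫ ω, X v ω ∂P = 0) →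
        ∀ᵐ ω ∂P,
          (∃ C : ℝ, ∀ D : 𝓞 F, D ≠ 0 → ∀ N : ℕ, 1 ≤ N → ∀ V : ℕ → ℝ, Antitone V →
            (∀ n, 0 ≤ V n) → (∀ n, V n ≤ 1) →
            |S (fun v => X v ω) D V N| ≤ C * Real.exp (A * Real.sqrt
              (Real.log (|(Algebra.norm ℤ D : ℝ)| * N + 16) *
                Real.log (Real.log (|(Algebra.norm ℤ D : ℝ)| * N + 16))))) ∧
          ∀ ε : ℝ, 0 < ε → ∃ C : ℝ, ∀ D : 𝓞 F, D ≠ 0 → ∀ N : ℕ, 1 ≤ N → ∀ V : ℕ → ℝ, Antitone V →
            (∀ n, 0 ≤ V n) → (∀ n, V n ≤ 1) →
            |S (fun v => X v ω) D V N| ≤ C * (|(Algebra.norm ℤ D : ℝ)| * N) ^ ε) ∧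
    ∃ (Ω : Type) (_ : MeasurableSpace Ω) (P : Measure Ω) (_ : IsProbabilityMeasure P)
      (X : HeightOneSpectrum (𝓞 F) → Ω → ℝ), (∀ v, Measurable (X v)) ∧ iIndepFun X P ∧
      (∀ v ω, |X v ω| ≤ 2) ∧ (∀ v, ∫ ω, X v ω ∂P = 0) ∧
      ∀ v a b, -2 ≤ a → a ≤ b → b ≤ 2 →
        (P {ω | a ≤ X v ω ∧ X v ω ≤ b}).toReal = ∫ t in a..b, Real.sqrt (4 - t ^ 2) / (2 * Real.pi) := by
  constructor
  · obtain ⟨A, hA, h⟩ := main2 pUNI pORD pMOM2 pPS pAES F
    refine ⟨A, hA, ?_⟩
    intro Ω _ P _ X hm hind hb h0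
    filter_upwards [h Ω P X hm hind hb h0, main pUNI pZET pORD pMOM pAES F Ω P X hm hind hb h0] with ω h1 h2
    exact ⟨h1, h2⟩
  · have := countable_primes F
    exact pEX (HeightOneSpectrum (𝓞 F))

end Pool.Agent.T2H51.LQ.All
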