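import Pool.Agent.T2H51.LQ.Stm

set_option autoImplicit false

open MeasureTheory ProbabilityTheory Filter Finset IsDedekindDomain NumberField

namespace Pool.Agent.T2H51.LQ

namespace EX

/-- Sato-Tate density (it vanishes outside `[-2,2]`) -/
noncomputable def dn (t : ℝ) : ℝ := Real.sqrt (4 - t ^ 2) / (2 * Real.pi)

lemma dn_nonneg (t : ℝ) : 0 ≤ dn t := div_nonneg (Real.sqrt_nonneg _) (by positivity)

lemma dn_cont : Continuous dn := by
  unfold dn
  exact (Real.continuous_sqrt.comp (by fun_prop)).div_const _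

lemma dn_zero {t : ℝ} (h : t ∉ Set.Icc (-2 : ℝ) 2) : dn t = 0 := by
  unfold dn
  have h1 : 4 - t ^ 2 ≤ 0 := by
    by_contra hcon
    push Not at hcon
    apply h
    constructor <;> nlinarith
  rw [Real.sqrt_eq_zero_of_nonpos h1, zero_div]

lemma dn_neg (t : ℝ) : dn (-t) = dn t := by
  unfold dn
  rw [neg_sq]

lemma int_dn : ∫ t in (-2 : ℝ)..2, dn t = 1 := by
  have h1 : ∫ x in (-2 : ℝ)..2, Real.sqrt (4 - x ^ 2) = 2 * Real.pi := by
    have h2 := intervalIntegral.integral_comp_mul_left (a := -1) (b := 1)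
      (fun x => Real.sqrt (4 - x ^ 2)) (c := 2) (by norm_num)
    have h3 : ∀ x : ℝ, Real.sqrt (4 - (2 * x) ^ 2) = 2 * Real.sqrt (1 - x ^ 2) := by
      intro x
      rw [show 4 - (2 * x) ^ 2 = 2 ^ 2 * (1 - x ^ 2) by ring, Real.sqrt_mul (by norm_num),
        Real.sqrt_sq (by norm_num)]
    simp only [h3] at h2
    rw [intervalIntegral.integral_const_mul, integral_sqrt_one_sub_sq] at h2
    norm_num at h2
    linarith
  unfold dn
  rw [intervalIntegral.integral_div, h1]
  field_simp

/-- the Sato-Tate law -/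
noncomputable def st : Measure ℝ := volume.withDensity (fun t => ENNReal.ofReal (dn t))

/-- truncation -/
noncomputable def cl (t : ℝ) : ℝ := max (-2) (min 2 t)

lemma cl_abs (t : ℝ) : |cl t| ≤ 2 := by
  unfold cl
  rw [abs_le]
  constructor
  · exact le_max_left _ _
  · exact max_le (by norm_num) (min_le_left _ _)

lemma cl_cont : Continuous cl := by
  unfold cl
  fun_prop

lemma cl_neg (t : ℝ) : cl (-t) = - cl t := by
  unfold cl
  rcases le_total t 2 with h | h <;> rcases le_total (-2) t with h' | h'
  · rw [min_eq_right (by linarith), min_eq_right h, max_eq_right (by linarith), max_eq_right h']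
  · rw [min_eq_left (by linarith), min_eq_right h, max_eq_right (by linarith), max_eq_left h']
    norm_num
  · rw [min_eq_right (by linarith), min_eq_left h, max_eq_left (by linarith), max_eq_right (by norm_num)]
  · linarith

lemma cl_id {t : ℝ} (h : t ∈ Set.Icc (-2 : ℝ) 2) : cl t = t := by
  unfold cl
  rw [min_eq_right h.2, max_eq_right h.1]

lemma st_set {a b : ℝ} (ha : -2 ≤ a) (hab : a ≤ b) (hb : b ≤ 2) :
    st {t | a ≤ cl t ∧ cl t ≤ b} = ENNReal.ofReal (∫ t in a..b, dn t) := by
  have hA : MeasurableSet {t | a ≤ cl t ∧ cl t ≤ b} := by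
    have h1 : MeasurableSet (cl ⁻¹' Set.Icc a b) := cl_cont.measurable measurableSet_Icc
    exact h1
  unfold st
  rw [withDensity_apply _ hA, ← lintegral_indicator hA]
  have h1 : (fun t => Set.indicator {t | a ≤ cl t ∧ cl t ≤ b} (fun t => ENNReal.ofReal (dn t)) t) =
      Set.indicator (Set.Icc a b) (fun t => ENNReal.ofReal (dn t)) := by
    funext t
    by_cases ht : t ∈ Set.Icc (-2 : ℝ) 2
    · by_cases h2 : t ∈ Set.Icc a b
      · rw [Set.indicator_of_mem h2, Set.indicator_of_mem]
        show a ≤ cl t ∧ cl t ≤ b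
        rw [cl_id ht]
        exact h2
      · rw [Set.indicator_of_notMem h2, Set.indicator_of_notMem]
        intro h3
        apply h2
        have h4 : a ≤ cl t ∧ cl t ≤ b := h3
        rw [cl_id ht] at h4
        exact h4
    · have h3 : t ∉ Set.Icc a b := fun h => ht ⟨ha.trans h.1, h.2.trans hb⟩
      rw [Set.indicator_of_notMem h3]
      by_cases h4 : t ∈ {t | a ≤ cl t ∧ cl t ≤ b}
      · rw [Set.indicator_of_mem h4, dn_zero ht, ENNReal.ofReal_zero]
      · rw [Set.indicator_of_notMem h4]
  rw [h1, lintegral_indicator measurableSet_Icc, intervalIntegral.integral_of_le hab,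
    ← integral_Icc_eq_integral_Ioc, ofReal_integral_eq_lintegral_ofReal]
  · exact dn_cont.integrableOn_Icc
  · exact Filter.Eventually.of_forall fun t => dn_nonneg t

lemma st_prob : IsProbabilityMeasure st := by
  constructor
  have h1 : (Set.univ : Set ℝ) = {t | -2 ≤ cl t ∧ cl t ≤ 2} := by
    ext t
    have := abs_le.1 (cl_abs t)
    simp [this.1, this.2]
  rw [h1, st_set le_rfl (by norm_num) le_rfl, int_dn, ENNReal.ofReal_one]

lemma st_mean : ∫ t, cl t ∂st = 0 := by
  unfold st
  rw [integral_withDensity_eq_integral_toReal_smul (dn_cont.measurable.ennreal_ofReal)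
    (Filter.Eventually.of_forall fun t => ENNReal.ofReal_lt_top)]
  have h1 : ∀ t, (ENNReal.ofReal (dn t)).toReal • cl t = dn t * cl t := fun t => by
    rw [ENNReal.toReal_ofReal (dn_nonneg t), smul_eq_mul]
  simp only [h1]
  have h2 := integral_neg_eq_self (fun t => dn t * cl t) (volume : Measure ℝ)
  simp only [dn_neg, cl_neg, mul_neg] at h2
  rw [integral_neg] at h2
  linarith

end EX

open EX

theorem pEX : S_EX := by
  intro ι _
  have := st_prob
  refine ⟨ι → ℝ, inferInstance, Measure.infinitePi (fun _ => st), inferInstance,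
    fun i ω => cl (ω i), ?_, ?_, ?_, ?_, ?_⟩
  · intro i
    exact cl_cont.measurable.comp (measurable_pi_apply i)
  · exact iIndepFun_infinitePi (P := fun _ : ι => st) (X := fun _ => cl) (fun _ => cl_cont.measurable)
  · intro i ω
    exact cl_abs _
  · intro i
    have hmp := measurePreserving_eval_infinitePi (fun _ : ι => st) i
    have h1 : ∫ ω, cl (ω i) ∂(Measure.infinitePi (fun _ : ι => st)) = ∫ t, cl t ∂st := by
      have h2 := integral_map (μ := Measure.infinitePi (fun _ : ι => st)) (φ := fun ω : ι → ℝ => ω i)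
        (measurable_pi_apply i).aemeasurable (f := cl) cl_cont.aestronglyMeasurable
      rw [← h2]
      have h3 : Measure.map (fun ω : ι → ℝ => ω i) (Measure.infinitePi (fun _ : ι => st)) = st := hmp.map_eq
      rw [h3]
    rw [h1, st_mean]
  · intro i a b ha hab hb
    have hmp := measurePreserving_eval_infinitePi (fun _ : ι => st) i
    have hA : MeasurableSet {t | a ≤ cl t ∧ cl t ≤ b} := by
      have h1 : MeasurableSet (cl ⁻¹' Set.Icc a b) := cl_cont.measurable measurableSet_Icc
      exact h1
    have h1 := hmp.measure_preimage hA.nullMeasurableSet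
    have h2 : Measure.infinitePi (fun _ : ι => st) {ω | a ≤ cl (ω i) ∧ cl (ω i) ≤ b} =
        st {t | a ≤ cl t ∧ cl t ≤ b} := h1
    rw [h2, st_set ha hab hb, ENNReal.toReal_ofReal]
    · rfl
    · exact intervalIntegral.integral_nonneg hab fun t _ => dn_nonneg t

end Pool.Agent.T2H51.LQ
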