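import Pool.Agent.T2H51.LQ.MOM
import Pool.Agent.T2H51.LQ.AES

/-! # Assembly -/

set_option autoImplicit false

open MeasureTheory ProbabilityTheory Filter Finset IsDedekindDomain NumberField

namespace Pool.Agent.T2H51.LQ

namespace FIN

/-- summation by parts -/
lemma parts (s t V : ℕ → ℝ) (hV : Antitone V) (hV0 : ∀ n, 0 ≤ V n) (hV1 : ∀ n, V n ≤ 1)
    (h0 : s 0 = 0) (h0' : t 0 = 0) (h : ∀ n, t (n + 1) - t n = V (n + 1) * (s (n + 1) - s n))
    (M : ℝ) (N : ℕ) (hM : ∀ n, n ≤ N → |s n| ≤ M) : |t N| ≤ M := by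
  have hM0 : 0 ≤ M := (abs_nonneg _).trans (hM 0 (Nat.zero_le _))
  have key : ∀ n, n ≤ N → |t n - V n * s n| ≤ M * (V 0 - V n) := by
    intro n
    induction n with
    | zero => intro _; rw [h0, h0']; simp
    | succ n ih =>
        intro hn
        have h1 := ih (by omega)
        have h2 : t (n + 1) - V (n + 1) * s (n + 1) = (t n - V n * s n) + (V n - V (n + 1)) * s n := by
          linear_combination h n
        rw [h2]
        have h3 := hM n (by omega)
        have h4 : 0 ≤ V n - V (n + 1) := sub_nonneg.2 (hV (Nat.le_succ n))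
        have h5 : |(V n - V (n + 1)) * s n| ≤ (V n - V (n + 1)) * M := by
          rw [abs_mul, abs_of_nonneg h4]
          exact mul_le_mul_of_nonneg_left h3 h4
        calc |(t n - V n * s n) + (V n - V (n + 1)) * s n| ≤ _ := abs_add_le _ _
          _ ≤ M * (V 0 - V n) + (V n - V (n + 1)) * M := add_le_add h1 h5
          _ = M * (V 0 - V (n + 1)) := by ring
  have h1 := key N le_rfl
  have h2 : |V N * s N| ≤ V N * M := by
    rw [abs_mul, abs_of_nonneg (hV0 N)]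
    exact mul_le_mul_of_nonneg_left (hM N le_rfl) (hV0 N)
  have h3 : |t N| ≤ |t N - V N * s N| + |V N * s N| := by
    have := abs_add_le (t N - V N * s N) (V N * s N)
    rwa [sub_add_cancel] at this
  have h4 : M * (V 0 - V N) + V N * M ≤ M := by
    have := mul_le_mul_of_nonneg_left (hV1 0) hM0
    nlinarith
  linarith

section
variable {F : Type} [Field F] [NumberField F]

lemma mem_B {N : ℕ} {I : Ideal (𝓞 F)} : I ∈ B F N ↔ I ≠ ⊥ ∧ Ideal.absNorm I ≤ N := by
  unfold B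
  rw [Set.Finite.mem_toFinset]
  rfl

lemma norm_pos {I : Ideal (𝓞 F)} (h : I ≠ ⊥) : 0 < Ideal.absNorm I :=
  Nat.pos_of_ne_zero fun h0 => h (Ideal.absNorm_eq_zero_iff.1 h0)

lemma S_zero (x : HeightOneSpectrum (𝓞 F) → ℝ) (D : 𝓞 F) (V : ℕ → ℝ) : S x D V 0 = 0 := by
  unfold S
  have : B F 0 = ∅ := by
    refine Finset.eq_empty_of_forall_notMem fun I hI => ?_
    obtain ⟨h1, h2⟩ := mem_B.1 hI
    have := norm_pos h1
    omega
  rw [this, sum_empty]

lemma S_succ (x : HeightOneSpectrum (𝓞 F) → ℝ) (D : 𝓞 F) (V : ℕ → ℝ) (n : ℕ) :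
    S x D V (n + 1) - S x D V n = V (n + 1) * (S x D (fun _ => 1) (n + 1) - S x D (fun _ => 1) n) := by
  classical
  have hsub : B F n ⊆ B F (n + 1) := by
    intro I hI
    obtain ⟨h1, h2⟩ := mem_B.1 hI
    exact mem_B.2 ⟨h1, by omega⟩
  have h : ∀ W : ℕ → ℝ, S x D W (n + 1) - S x D W n =
      ∑ I ∈ B F (n + 1) \ B F n, lam x I * chi D I / Real.sqrt (Ideal.absNorm I) * W (Ideal.absNorm I) := by
    intro W
    unfold S
    rw [← Finset.sum_sdiff hsub]
    ring
  rw [h, h, mul_sum]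
  refine sum_congr rfl fun I hI => ?_
  have h1 := mem_sdiff.1 hI
  have h2 := mem_B.1 h1.1
  have h3 : Ideal.absNorm I = n + 1 := by
    by_contra hne
    exact h1.2 (mem_B.2 ⟨h2.1, by omega⟩)
  rw [h3]
  ring

lemma S_weight (x : HeightOneSpectrum (𝓞 F) → ℝ) (D : 𝓞 F) (V : ℕ → ℝ) (hV : Antitone V)
    (hV0 : ∀ n, 0 ≤ V n) (hV1 : ∀ n, V n ≤ 1) (M : ℝ) (N : ℕ)
    (hM : ∀ n, n ≤ N → |S x D (fun _ => 1) n| ≤ M) : |S x D V N| ≤ M :=
  parts (fun n => S x D (fun _ => 1) n) (fun n => S x D V n) V hV hV0 hV1 (S_zero _ _ _) (S_zero _ _ _)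
    (fun n => S_succ x D V n) M N hM

lemma S_congr_unit (hORD : S_ORD) (x : HeightOneSpectrum (𝓞 F) → ℝ) (D : 𝓞 F) (u : (𝓞 F)ˣ) (V : ℕ → ℝ) (N : ℕ) :
    S x (D * (u : 𝓞 F) ^ 2) V N = S x D V N := by
  unfold S
  exact sum_congr rfl fun I _ => by rw [(hORD F).2.2.2.2 D u I]

lemma span_unit (D : 𝓞 F) (u : (𝓞 F)ˣ) : Ideal.span {D * (u : 𝓞 F) ^ 2} = Ideal.span {D} :=
  Ideal.span_singleton_mul_right_unit (u.isUnit.pow 2) D

/-- the moment bound for the sum over the ideals of norm at most `N` -/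
lemma moment (hZET : S_ZET) (hORD : S_ORD) (hMOM : S_MOM) (k : ℕ) (hk1 : 1 ≤ k)
    {Ω : Type} [MeasurableSpace Ω] (P : Measure Ω) [IsProbabilityMeasure P]
    (X : HeightOneSpectrum (𝓞 F) → Ω → ℝ) (hm : ∀ v, Measurable (X v)) (hind : iIndepFun X P)
    (hb : ∀ v ω, |X v ω| ≤ 2) (h0 : ∀ v, ∫ ω, X v ω ∂P = 0) :
    ∃ C : ℝ, 0 ≤ C ∧ ∀ (D : 𝓞 F) (N : ℕ), 1 ≤ N →
      ∫ ω, S (fun v => X v ω) D (fun _ => 1) N ^ (2 * k) ∂P ≤ C * N := by
  classical
  obtain ⟨K, hK, hmom⟩ := hMOM (2 * k)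
  obtain ⟨hfin, hT, hinj, h2, -⟩ := hORD F
  set δ : ℝ := 1 / (2 * k) with hδ
  have hk0 : (0 : ℝ) < k := by exact_mod_cast hk1
  have hδ0 : 0 < δ := by positivity
  have hsum := (hZET F (1 + 2 * δ) (by linarith)).1
  set Z : ℝ := ∑' v : HeightOneSpectrum (𝓞 F), (Ideal.absNorm v.asIdeal : ℝ) ^ (-(1 + 2 * δ)) with hZ
  refine ⟨Real.exp (K * Z), (Real.exp_pos _).le, fun D N hN => ?_⟩
  have hN0 : (0 : ℝ) < N := by exact_mod_cast hN
  -- the primes
  set T : Finset (HeightOneSpectrum (𝓞 F)) := (B F N).attach.biUnion fun I =>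
    (hfin I.1 (mem_B.1 I.2).1).toFinset with hTdef
  have hTmem : ∀ I ∈ B F N, ∀ v, ordI v I ≠ 0 → v ∈ T := by
    intro I hI v hv
    rw [hTdef, mem_biUnion]
    refine ⟨⟨I, hI⟩, mem_attach _ _, ?_⟩
    rw [Set.Finite.mem_toFinset]
    exact hv
  set y : HeightOneSpectrum (𝓞 F) → ℝ := fun v => (Ideal.absNorm v.asIdeal : ℝ) ^ (-(1 / 2 + δ)) with hy
  have hq : ∀ v : HeightOneSpectrum (𝓞 F), (2 : ℝ) ≤ Ideal.absNorm v.asIdeal := fun v => by exact_mod_cast h2 v
  have hy0 : ∀ v, 0 ≤ y v := fun v => by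
    have := hq v
    positivity
  have hy1 : ∀ v, y v ≤ 3 / 4 := by
    intro v
    have h3 : y v ≤ (2 : ℝ) ^ (-(1 / 2 + δ)) :=
      Real.rpow_le_rpow_of_nonpos (by norm_num) (hq v) (by linarith)
    have h4 : (2 : ℝ) ^ (-(1 / 2 + δ)) ≤ (2 : ℝ) ^ (-(1 / 2 : ℝ)) :=
      Real.rpow_le_rpow_of_exponent_le (by norm_num) (by linarith)
    have h5 : (2 : ℝ) ^ (-(1 / 2 : ℝ)) ≤ 3 / 4 := by
      rw [Real.rpow_neg (by norm_num), ← Real.sqrt_eq_rpow, inv_le_comm₀ (by positivity) (by norm_num)]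
      rw [Real.le_sqrt (by norm_num) (by norm_num)]
      norm_num
    linarith
  have hN1 : (N : ℝ) ^ δ * (N : ℝ) ^ (-δ) = 1 := by
    rw [← Real.rpow_add hN0, add_neg_cancel, Real.rpow_zero]
  set c : Ideal (𝓞 F) → ℝ := fun I => (N : ℝ) ^ (-δ) * (chi D I / Real.sqrt (Ideal.absNorm I)) with hc
  have hmain := hmom T Ω P (fun v ω => X v.1 ω) (fun v => hm v.1)
    (hind.precomp Subtype.val_injective) (fun v ω => hb v.1 ω) (fun v => h0 v.1)
    (Ideal (𝓞 F)) (B F N) (fun I v => ordI v.1 I) c (fun v => y v.1)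
    (by
      intro I hI J hJ hIJ
      refine hinj I J (mem_B.1 hI).1 (mem_B.1 hJ).1 fun v => ?_
      by_cases hv : v ∈ T
      · exact congrFun hIJ ⟨v, hv⟩
      · have h3 : ordI v I = 0 := by_contra fun h => hv (hTmem I hI v h)
        have h4 : ordI v J = 0 := by_contra fun h => hv (hTmem J hJ v h)
        rw [h3, h4])
    (fun v => ⟨hy0 v.1, hy1 v.1⟩)
    (by
      intro I hI
      obtain ⟨hI0, hIN⟩ := mem_B.1 hI
      obtain ⟨h3, -, h5⟩ := hT I T hI0 (hTmem I hI)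
      have hpos : (0 : ℝ) < Ideal.absNorm I := by exact_mod_cast norm_pos hI0
      have hle : (Ideal.absNorm I : ℝ) ≤ N := by exact_mod_cast hIN
      have h6 : ∏ v : T, y v.1 ^ ordI v.1 I = (Ideal.absNorm I : ℝ) ^ (-(1 / 2 + δ)) := by
        rw [Finset.prod_coe_sort T (fun v => y v ^ ordI v I), h3,
          ← Real.finsetProd_rpow _ _ fun v _ => by positivity]
        refine prod_congr rfl fun v _ => ?_
        rw [hy]
        simp only
        rw [← Real.rpow_natCast, ← Real.rpow_mul (by positivity), ← Real.rpow_natCast,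
          ← Real.rpow_mul (by positivity), mul_comm]
      rw [h6, hc]
      simp only
      rw [abs_mul, abs_div, abs_of_nonneg (Real.rpow_nonneg hN0.le _), abs_of_nonneg (Real.sqrt_nonneg _)]
      have h7 : |chi D I| / Real.sqrt (Ideal.absNorm I) ≤ (Ideal.absNorm I : ℝ) ^ (-(1 / 2 : ℝ)) := by
        rw [Real.rpow_neg hpos.le, ← Real.sqrt_eq_rpow, div_eq_mul_inv]
        exact mul_le_of_le_one_left (by positivity) (h5 D)
      have h8 : (N : ℝ) ^ (-δ) ≤ (Ideal.absNorm I : ℝ) ^ (-δ) :=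
        Real.rpow_le_rpow_of_nonpos hpos hle (by linarith)
      calc (N : ℝ) ^ (-δ) * (|chi D I| / Real.sqrt (Ideal.absNorm I))
          ≤ (Ideal.absNorm I : ℝ) ^ (-δ) * (Ideal.absNorm I : ℝ) ^ (-(1 / 2 : ℝ)) :=
            mul_le_mul h8 h7 (by positivity) (by positivity)
        _ = _ := by
            rw [← Real.rpow_add hpos]
            congr 1
            ring)
  -- identify the sum
  have hS : ∀ ω, S (fun v => X v ω) D (fun _ => 1) N ^ (2 * k) =
      N * (∑ I ∈ B F N, c I * ∏ v : T, hk (ordI v.1 I) (X v.1 ω)) ^ (2 * k) := by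
    intro ω
    have h3 : S (fun v => X v ω) D (fun _ => 1) N =
        (N : ℝ) ^ δ * ∑ I ∈ B F N, c I * ∏ v : T, hk (ordI v.1 I) (X v.1 ω) := by
      unfold S
      rw [mul_sum]
      refine sum_congr rfl fun I hI => ?_
      obtain ⟨hI0, hIN⟩ := mem_B.1 hI
      obtain ⟨-, h4, -⟩ := hT I T hI0 (hTmem I hI)
      rw [h4, Finset.prod_coe_sort T (fun v => hk (ordI v I) (X v ω)), hc]
      simp only
      linear_combination (-(∏ v ∈ T, hk (ordI v I) (X v ω)) * (chi D I / Real.sqrt (Ideal.absNorm I))) * hN1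
    rw [h3, mul_pow, ← Real.rpow_natCast ((N : ℝ) ^ δ), ← Real.rpow_mul hN0.le]
    congr 1
    have : δ * ((2 * k : ℕ) : ℝ) = 1 := by
      rw [hδ]; push_cast; field_simp
    rw [this, Real.rpow_one]
  simp_rw [hS]
  rw [integral_const_mul, mul_comm]
  refine mul_le_mul_of_nonneg_right (hmain.trans ?_) hN0.le
  -- the product
  have h9 : ∀ v : T, 1 + K * y v.1 ^ 2 ≤ Real.exp (K * (Ideal.absNorm v.1.asIdeal : ℝ) ^ (-(1 + 2 * δ))) := by
    intro v
    have h10 : y v.1 ^ 2 = (Ideal.absNorm v.1.asIdeal : ℝ) ^ (-(1 + 2 * δ)) := by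
      rw [hy]
      simp only
      rw [← Real.rpow_natCast, ← Real.rpow_mul (by positivity)]
      congr 1
      push_cast
      ring
    rw [h10]
    have := Real.add_one_le_exp (K * (Ideal.absNorm v.1.asIdeal : ℝ) ^ (-(1 + 2 * δ)))
    linarith
  refine (prod_le_prod (fun v _ => by have := hy0 v.1; positivity) fun v _ => h9 v).trans ?_
  rw [← Real.exp_sum, Real.exp_le_exp, ← mul_sum]
  refine mul_le_mul_of_nonneg_left ?_ hK
  rw [Finset.sum_coe_sort T (fun v => (Ideal.absNorm v.asIdeal : ℝ) ^ (-(1 + 2 * δ)))]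
  exact hsum.sum_le_tsum T fun v _ => by positivity

end

end FIN

/-- **Main theorem** -/
theorem main (hUNI : S_UNI) (hZET : S_ZET) (hORD : S_ORD) (hMOM : S_MOM) (hAES : S_AES)
    (F : Type) [Field F] [NumberField F]
    (Ω : Type) [MeasurableSpace Ω] (P : Measure Ω) [IsProbabilityMeasure P]
    (X : HeightOneSpectrum (𝓞 F) → Ω → ℝ) (hm : ∀ v, Measurable (X v)) (hind : iIndepFun X P)
    (hb : ∀ v ω, |X v ω| ≤ 2) (h0 : ∀ v, ∫ ω, X v ω ∂P = 0) :
    ∀ᵐ ω ∂P, ∀ ε : ℝ, 0 < ε → ∃ C : ℝ, ∀ D : 𝓞 F, D ≠ 0 → ∀ N : ℕ, 1 ≤ N → ∀ V : ℕ → ℝ, Antitone V →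
      (∀ n, 0 ≤ V n) → (∀ n, V n ≤ 1) →
      |S (fun v => X v ω) D V N| ≤ C * (|(Algebra.norm ℤ D : ℝ)| * N) ^ ε := by
  classical
  obtain ⟨J, hJ, rep, hrep0, hrepS, hrep⟩ := hUNI F
  set a : J → ℝ := fun j => (Ideal.absNorm (Ideal.span {rep j}) : ℝ) with ha
  have ha1 : ∀ j, 1 ≤ a j := by
    intro j
    have : Ideal.span {rep j} ≠ ⊥ := by
      rw [Ne, Ideal.span_singleton_eq_bot]; exact hrep0 j
    have h1 := FIN.norm_pos this
    have h2 : (1 : ℝ) ≤ (Ideal.absNorm (Ideal.span {rep j}) : ℝ) := by exact_mod_cast h1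
    exact h2
  -- for every `k`
  have hk : ∀ k : ℕ, ∀ᵐ ω ∂P, ∃ C : ℝ, 0 ≤ C ∧ ∀ (j : J) (n : ℕ),
      S (fun v => X v ω) (rep j) (fun _ => 1) (n + 1) ^ (2 * (k + 1)) ≤ C * (a j * (n + 1)) ^ 3 := by
    intro k
    obtain ⟨C, hC, hmo⟩ := FIN.moment hZET hORD hMOM (k + 1) (by omega) P X hm hind hb h0
    have hcount : Countable (J × ℕ) := inferInstance
    have hSm : ∀ (D : 𝓞 F) (N : ℕ), Measurable fun ω => S (fun v => X v ω) D (fun _ => 1) N := by
      intro D N
      unfold S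
      refine Finset.measurable_sum _ fun I hI => ?_
      refine Measurable.mul_const (Measurable.div_const (Measurable.mul_const ?_ _) _) _
      obtain ⟨hfin, hT, -⟩ := hORD F
      obtain ⟨-, h4, -⟩ := hT I (hfin I (FIN.mem_B.1 hI).1).toFinset (FIN.mem_B.1 hI).1
        (fun v hv => by rw [Set.Finite.mem_toFinset]; exact hv)
      simp_rw [h4]
      exact Finset.measurable_prod _ fun v _ => (MOM.hk_cont _).1.measurable.comp (hm v)
    have hSb : ∀ (D : 𝓞 F) (N : ℕ), ∃ M : ℝ, ∀ ω, |S (fun v => X v ω) D (fun _ => 1) N| ≤ M := by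
      intro D N
      have hI : ∀ I ∈ B F N, ∃ M : ℝ, ∀ ω, |lam (fun v => X v ω) I * chi D I /
          Real.sqrt (Ideal.absNorm I) * 1| ≤ M := by
        intro I hI
        obtain ⟨hfin, hT, -⟩ := hORD F
        obtain ⟨-, h4, -⟩ := hT I (hfin I (FIN.mem_B.1 hI).1).toFinset (FIN.mem_B.1 hI).1
          (fun v hv => by rw [Set.Finite.mem_toFinset]; exact hv)
        refine ⟨(∏ v ∈ (hfin I (FIN.mem_B.1 hI).1).toFinset, ((ordI v I : ℝ) + 1)) *
          |chi D I / Real.sqrt (Ideal.absNorm I)|, fun ω => ?_⟩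
        rw [mul_one, mul_div_assoc, abs_mul, h4, abs_prod]
        refine mul_le_mul_of_nonneg_right ?_ (abs_nonneg _)
        exact prod_le_prod (fun v _ => abs_nonneg _) fun v _ => MOM.hk_bound _ _ (hb v ω)
      choose! M hM using hI
      exact ⟨∑ I ∈ B F N, M I, fun ω => (abs_sum_le_sum_abs _ _).trans (sum_le_sum fun I hI => hM I hI ω)⟩
    have h1 := hAES Ω P (J × ℕ) (fun i ω => S (fun v => X v ω) (rep i.1) (fun _ => 1) (i.2 + 1) ^ (2 * (k + 1)) /
      (a i.1 ^ 2 * ((i.2 : ℝ) + 1) ^ 3)) (fun i => C * (1 / a i.1 ^ 2 * (1 / ((i.2 : ℝ) + 1) ^ 2)))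
      (fun i => ((hSm _ _).pow_const _).div_const _)
      (fun i ω => by
        have := ha1 i.1
        have h3 : 0 ≤ S (fun v => X v ω) (rep i.1) (fun _ => 1) (i.2 + 1) ^ (2 * (k + 1)) := by
          rw [pow_mul]; positivity
        positivity)
      (fun i => by
        refine Integrable.div_const ?_ _
        obtain ⟨M, hM⟩ := hSb (rep i.1) (i.2 + 1)
        refine Integrable.of_bound (C := M ^ (2 * (k + 1))) ((hSm _ _).pow_const _).aestronglyMeasurable
          (Filter.Eventually.of_forall fun ω => ?_)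
        rw [Real.norm_eq_abs, abs_pow]
        exact pow_le_pow_left₀ (abs_nonneg _) (hM ω) _)
      (fun i => by
        have h2 := hmo (rep i.1) (i.2 + 1) (by omega)
        have h3 := ha1 i.1
        rw [integral_div, div_le_iff₀ (by positivity)]
        refine h2.trans (le_of_eq ?_)
        push_cast
        field_simp)
      (by
        refine Summable.mul_left _ ?_
        refine Summable.mul_of_nonneg (f := fun j => 1 / a j ^ 2) (g := fun n : ℕ => 1 / ((n : ℝ) + 1) ^ 2) hrepS ?_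
          (fun j => by positivity) (fun n => by positivity)
        have := (summable_nat_add_iff 1).2 (Real.summable_one_div_nat_pow.2 (by norm_num : 1 < 2))
        simpa using this)
    filter_upwards [h1] with ω hω
    obtain ⟨C', hC', h2⟩ := hω
    refine ⟨C', hC', fun j n => ?_⟩
    have h3 := h2 (j, n)
    simp only at h3
    have h4 := ha1 j
    rw [div_le_iff₀ (by positivity)] at h3
    refine h3.trans (mul_le_mul_of_nonneg_left ?_ hC')
    rw [mul_pow]
    refine mul_le_mul_of_nonneg_right ?_ (by positivity)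
    exact pow_le_pow_right₀ h4 (by norm_num)
  rw [← ae_all_iff] at hk
  filter_upwards [hk] with ω hω
  intro ε hε
  obtain ⟨k, hkk⟩ := exists_nat_ge (3 / (2 * ε))
  obtain ⟨C, hC, hCb⟩ := hω k
  refine ⟨C + 1, ?_⟩
  -- bound for the sharp cutoff
  have hsharp : ∀ (D : 𝓞 F), D ≠ 0 → ∀ n : ℕ, 1 ≤ n →
      |S (fun v => X v ω) D (fun _ => 1) n| ≤ (C + 1) * (|(Algebra.norm ℤ D : ℝ)| * n) ^ ε := by
    intro D hD n hn
    obtain ⟨j, u, hDu⟩ := hrep D hD
    have h1 : |(Algebra.norm ℤ D : ℝ)| = a j := by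
      rw [ha]
      simp only
      rw [← FIN.span_unit (rep j) u, ← hDu, Ideal.absNorm_span_singleton]
      rw [Nat.cast_natAbs]
      push_cast
      rfl
    have h2 : S (fun v => X v ω) D (fun _ => 1) n = S (fun v => X v ω) (rep j) (fun _ => 1) n := by
      rw [hDu]; exact FIN.S_congr_unit hORD _ _ _ _ _
    rw [h1, h2]
    obtain ⟨m, rfl⟩ : ∃ m, n = m + 1 := ⟨n - 1, by omega⟩
    have h3 := hCb j m
    set Sx := S (fun v => X v ω) (rep j) (fun _ => 1) (m + 1) with hSx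
    set q : ℝ := a j * ((m : ℝ) + 1) with hq
    have hq1 : 1 ≤ q := by
      have := ha1 j
      have h5 : (1 : ℝ) ≤ (m : ℝ) + 1 := by linarith [(Nat.cast_nonneg m : (0 : ℝ) ≤ m)]
      nlinarith
    have hq0 : 0 < q := by linarith
    have h4 : |Sx| ^ (2 * (k + 1)) ≤ ((C + 1) * q ^ ε) ^ (2 * (k + 1)) := by
      have h5 : |Sx| ^ (2 * (k + 1)) = Sx ^ (2 * (k + 1)) := by
        rw [pow_mul, sq_abs, ← pow_mul]
      rw [h5, mul_pow]
      refine h3.trans (mul_le_mul ?_ ?_ (by positivity) (by positivity))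
      · have h6 : (1 : ℝ) ≤ C + 1 := by linarith
        have h7 : C + 1 ≤ (C + 1) ^ (2 * (k + 1)) := le_self_pow₀ h6 (by omega)
        linarith
      · rw [← Real.rpow_natCast (q ^ ε), ← Real.rpow_mul hq0.le, ← Real.rpow_natCast q]
        refine Real.rpow_le_rpow_of_exponent_le hq1 ?_
        push_cast
        have h8 : 3 ≤ k * (2 * ε) := by
          rw [div_le_iff₀ (by positivity)] at hkk
          linarith
        nlinarith
    push_cast
    exact le_of_pow_le_pow_left₀ (by omega) (by positivity) h4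
  intro D hD N hN V hV hV0 hV1
  have hnorm : (1 : ℝ) ≤ |(Algebra.norm ℤ D : ℝ)| := by
    have h1 : Algebra.norm ℤ D ≠ 0 := Algebra.norm_ne_zero_iff.2 hD
    have h2 : 1 ≤ |Algebra.norm ℤ D| := Int.one_le_abs h1
    exact_mod_cast h2
  refine FIN.S_weight _ D V hV hV0 hV1 _ N fun n hn => ?_
  rcases Nat.eq_zero_or_pos n with h | h
  · rw [h, FIN.S_zero, abs_zero]
    positivity
  · refine (hsharp D hD n h).trans ?_
    refine mul_le_mul_of_nonneg_left ?_ (by linarith)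
    refine Real.rpow_le_rpow (by positivity) ?_ hε.le
    have : (n : ℝ) ≤ N := by exact_mod_cast hn
    exact mul_le_mul_of_nonneg_left this (by positivity)

end Pool.Agent.T2H51.LQ
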