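import Pool.Agent.T2H51.LQ.Defs

/-!
# Packages of project LQ (helper51), MP_21d687_nt (hard)

TARGET: `X v` independent, `|X v| ≤ 2`, mean zero (e.g. Sato-Tate), `λ` the Hecke multiplicative function. Almost surely:
for all `ε > 0` there is `C` with `|S X D V N| ≤ C (|N(D)| N)^ε` for all `0 ≠ D ∈ 𝓞 F`, all `N ≥ 1` and all nonincreasing
weights `V : ℕ → [0,1]`, for every number field `F`.

Every package is independent. File `Pool/Agent/T2H51/LQ/<ID>.lean`, `import Pool.Agent.T2H51.LQ.Stm`,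
`namespace Pool.Agent.T2H51.LQ`, `theorem p<ID> : S_<ID>`, own lemmas in a sub-namespace `<ID>`.
-/

set_option autoImplicit false

open MeasureTheory ProbabilityTheory Filter Finset IsDedekindDomain NumberField

namespace Pool.Agent.T2H51.LQ

/-- UNI (35 min). Representatives of the nonzero integers modulo squares of units: the units are finitely generated
(`NumberField.Units`, `Monoid.FG`), so `U/U^2` is finite (`CommGroup.finite_of_fg_torsion`); `J` = the principal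
nonzero ideals (a generator chosen) times `U/U^2` (a representative chosen). The sum over the ideals of `N(I)^(-2)`
converges (`aK_summable` in `Pool.Agent.H332R2.PIT.Bound`, or package ZET). -/
def S_UNI : Prop := ∀ (F : Type) [Field F] [NumberField F],
  ∃ (J : Type) (_ : Countable J) (rep : J → 𝓞 F), (∀ j, rep j ≠ 0) ∧
    Summable (fun j => 1 / (Ideal.absNorm (Ideal.span {rep j}) : ℝ) ^ 2) ∧
    ∀ D : 𝓞 F, D ≠ 0 → ∃ j, ∃ u : (𝓞 F)ˣ, D = rep j * (u : 𝓞 F) ^ 2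

/-- ZET (20 min). For `σ > 1` the sum of `N(v)^(-σ)` over the nonzero prime ideals converges, and so does the one over
the nonzero ideals (`aK_summable` in `Pool.Agent.H332R2.PIT.Bound`, `aK K n` = number of ideals of norm `n`; or the
library `Pool.Agent.H484R2.Zeta`). -/
def S_ZET : Prop := ∀ (F : Type) [Field F] [NumberField F] (σ : ℝ), 1 < σ →
  Summable (fun v : HeightOneSpectrum (𝓞 F) => (Ideal.absNorm v.asIdeal : ℝ) ^ (-σ)) ∧
  Summable (fun I : {I : Ideal (𝓞 F) // I ≠ ⊥} => (Ideal.absNorm I.1 : ℝ) ^ (-σ))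

/-- EX (30 min). There are independent random variables with the Sato-Tate law: product space
(`Measure.infinitePi`, `iIndepFun_infinitePi`) of the law on `ℝ` with density `√(4 - x²)/(2π)` on `[-2,2]`
(total mass `1` by `integral_sqrt_one_sub_sq` or the substitution `x = 2 cos t`, mean `0` as it is even). -/
def S_EX : Prop := ∀ (ι : Type) [Countable ι], ∃ (Ω : Type) (_ : MeasurableSpace Ω) (P : Measure Ω)
  (_ : IsProbabilityMeasure P) (X : ι → Ω → ℝ), (∀ i, Measurable (X i)) ∧ iIndepFun X P ∧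
    (∀ i ω, |X i ω| ≤ 2) ∧ (∀ i, ∫ ω, X i ω ∂P = 0) ∧
    ∀ i a b, -2 ≤ a → a ≤ b → b ≤ 2 →
      (P {ω | a ≤ X i ω ∧ X i ω ≤ b}).toReal = ∫ t in a..b, Real.sqrt (4 - t ^ 2) / (2 * Real.pi)

/-- ORD (30 min). Facts on the exponents; `T` is a finite set of primes which contains all `v` with
`ordI v I ≠ 0` (`Ideal.finite_factors`, `Ideal.finprod_heightOneSpectrum_factorization`,
`finprod_eq_prod_of_mulSupport_subset`). -/
def S_ORD : Prop := ∀ (F : Type) [Field F] [NumberField F],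
  (∀ I : Ideal (𝓞 F), I ≠ ⊥ → {v : HeightOneSpectrum (𝓞 F) | ordI v I ≠ 0}.Finite) ∧
  (∀ (I : Ideal (𝓞 F)) (T : Finset (HeightOneSpectrum (𝓞 F))), I ≠ ⊥ → (∀ v, ordI v I ≠ 0 → v ∈ T) →
    (Ideal.absNorm I : ℝ) = ∏ v ∈ T, (Ideal.absNorm v.asIdeal : ℝ) ^ ordI v I ∧
    (∀ x : HeightOneSpectrum (𝓞 F) → ℝ, lam x I = ∏ v ∈ T, hk (ordI v I) (x v)) ∧
    ∀ D : 𝓞 F, |chi D I| ≤ 1) ∧
  (∀ I J : Ideal (𝓞 F), I ≠ ⊥ → J ≠ ⊥ → (∀ v, ordI v I = ordI v J) → I = J) ∧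
  (∀ v : HeightOneSpectrum (𝓞 F), 2 ≤ Ideal.absNorm v.asIdeal) ∧
  (∀ (D : 𝓞 F) (u : (𝓞 F)ˣ) (I : Ideal (𝓞 F)), chi (D * (u : 𝓞 F) ^ 2) I = chi D I)

/-- MOM (40 min, helper51). The moment bound: `m = 2k`. -/
def S_MOM : Prop := ∀ (m : ℕ), ∃ K : ℝ, 0 ≤ K ∧
  ∀ (ι : Type) [Fintype ι] (Ω : Type) [MeasurableSpace Ω] (P : Measure Ω) [IsProbabilityMeasure P]
    (X : ι → Ω → ℝ), (∀ i, Measurable (X i)) → iIndepFun X P → (∀ i ω, |X i ω| ≤ 2) → (∀ i, ∫ ω, X i ω ∂P = 0) →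
  ∀ (β : Type) (B : Finset β) (e : β → ι → ℕ) (c : β → ℝ) (y : ι → ℝ),
    (∀ a ∈ B, ∀ b ∈ B, e a = e b → a = b) → (∀ v, 0 ≤ y v ∧ y v ≤ 3 / 4) →
    (∀ a ∈ B, |c a| ≤ ∏ v, y v ^ e a v) →
    ∫ ω, (∑ a ∈ B, c a * ∏ v, hk (e a v) (X v ω)) ^ m ∂P ≤ ∏ v, (1 + K * y v ^ 2)

/-- AES (20 min, helper51). If the sum of the expectations is finite, all terms are bounded almost surely. -/
def S_AES : Prop := ∀ (Ω : Type) [MeasurableSpace Ω] (P : Measure Ω) [IsProbabilityMeasure P] (κ : Type) [Countable κ]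
  (Y : κ → Ω → ℝ) (w : κ → ℝ), (∀ i, Measurable (Y i)) → (∀ i ω, 0 ≤ Y i ω) → (∀ i, Integrable (Y i) P) →
  (∀ i, ∫ ω, Y i ω ∂P ≤ w i) → Summable w → ∀ᵐ ω ∂P, ∃ C : ℝ, 0 ≤ C ∧ ∀ i, Y i ω ≤ C

end Pool.Agent.T2H51.LQ
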