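import Pool.Agent.T2H51.LQ.Stm

/-!
# Second part of project LQ (helper51): the bound `exp(A sqrt(log X loglog X))`, `X = |N(D)| N`
-/

set_option autoImplicit false

open MeasureTheory ProbabilityTheory Filter Finset IsDedekindDomain NumberField

namespace Pool.Agent.T2H51.LQ

/-- PS (35 min). Mertens upper bound over the number field `F`: a prime `v` lies over a rational prime `p` with
`p ≤ N(v) ≤ N`, and over each `p` there are at most `[F:ℚ]` primes; then `∑_{p ≤ N} 1/p ≤ log log N + C` (library: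
`Pool.Agent.Erdos456.Mertens`), `log log 16 ≥ 1` absorbs the constant. (Or use `(s-1) ζ_F(s)` bounded and
`∏_{v ∈ T} (1 - N(v)^(-s))^(-1) ≤ ζ_F(s)`, `s = 1 + 1/log N`.) -/
def S_PS : Prop := ∀ (F : Type) [Field F] [NumberField F], ∃ C : ℝ, 0 ≤ C ∧
  ∀ (N : ℕ) (T : Finset (HeightOneSpectrum (𝓞 F))), (∀ v ∈ T, Ideal.absNorm v.asIdeal ≤ N) →
    ∑ v ∈ T, 1 / (Ideal.absNorm v.asIdeal : ℝ) ≤ C * Real.log (Real.log ((N : ℝ) + 16))

/-- MOM2 (helper51). The moment bound, uniformly in the order. -/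
def S_MOM2 : Prop := ∃ K : ℝ, 0 ≤ K ∧
  ∀ (m : ℕ), 1 ≤ m → ∀ (ι : Type) [Fintype ι] (Ω : Type) [MeasurableSpace Ω] (P : Measure Ω) [IsProbabilityMeasure P]
    (X : ι → Ω → ℝ), (∀ i, Measurable (X i)) → iIndepFun X P → (∀ i ω, |X i ω| ≤ 2) → (∀ i, ∫ ω, X i ω ∂P = 0) →
  ∀ (β : Type) (B : Finset β) (e : β → ι → ℕ) (c : β → ℝ) (y : ι → ℝ),
    (∀ a ∈ B, ∀ b ∈ B, e a = e b → a = b) → (∀ v, 0 ≤ y v ∧ y v ≤ 3 / 4) →
    (∀ a ∈ B, |c a| ≤ ∏ v, y v ^ e a v) →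
    ∫ ω, (∑ a ∈ B, c a * ∏ v, hk (e a v) (X v ω)) ^ m ∂P ≤ Real.exp (K * (m : ℝ) ^ 2 * ∑ v, y v ^ 2)

end Pool.Agent.T2H51.LQ
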